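import Mathlib

set_option autoImplicit false

universe u v

open Cardinal Set

namespace Pool.Agent.H12.Ideals

/-- Recursive choice along a well-founded relation. -/
theorem rec_choice {ι : Type u} {α : Type v} [Nonempty α] (r : ι → ι → Prop) (hr : WellFounded r)
    (R : (i : ι) → ({j // r j i} → α) → α → Prop)
    (h : ∀ (i : ι) (f : ι → α), (∀ j, r j i → R j (fun k => f k.1) (f j)) →
      ∃ a, R i (fun k => f k.1) a) :
    ∃ f : ι → α, ∀ i, R i (fun k => f k.1) (f i) := by
  classical
  let g : (i : ι) → ((j : ι) → r j i → α) → α := fun i f =>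
    if H : ∃ a, R i (fun k => f k.1 k.2) a then H.choose else Classical.arbitrary α
  let f : ι → α := hr.fix g
  have hf : ∀ i, f i = g i (fun j _ => f j) := fun i => hr.fix_eq g i
  refine ⟨f, fun i => ?_⟩
  induction i using hr.induction with
  | h i ih =>
    have H : ∃ a, R i (fun k => f k.1) a := h i f ih
    have h1 : f i = H.choose := by
      rw [hf i]; simp only [g]; rw [dif_pos H]
    rw [h1]
    exact H.choose_spec

/-- Every cardinal below `κ` is the cardinality of an initial segment of `κ.ord.ToType`. -/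
theorem exists_Iio_card (κ : Cardinal.{u}) (l : Cardinal.{u}) (hl : l < κ) :
    ∃ a : κ.ord.ToType, #(Iio a) = l := by
  have h1 : l.ord < κ.ord := ord_lt_ord.2 hl
  have h2 : l.ord < Ordinal.type (α := κ.ord.ToType) (· < ·) := by simpa using h1
  refine ⟨Ordinal.enum (α := κ.ord.ToType) (· < ·) ⟨l.ord, h2⟩, ?_⟩
  have h3 := Ordinal.card_typein (r := ((· < ·) : κ.ord.ToType → κ.ord.ToType → Prop))
    (Ordinal.enum (α := κ.ord.ToType) (· < ·) ⟨l.ord, h2⟩)
  rw [Ordinal.typein_enum, card_ord] at h3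
  exact h3.symm

/-- Closing off under a function on small subsets. -/
theorem exists_closed {P : Type u} (κ c : Cardinal.{u}) (hκc : κ ≤ c) (hc : ℵ₀ ≤ c)
    (hpow : ∀ l < κ, c ^ l ≤ c) (Φ : Set P → Set P) (hΦ : ∀ A : Set P, #A < κ → #(Φ A) ≤ c) :
    ∃ M : Set P, #M ≤ c ∧ ∀ A ⊆ M, #A < κ → Φ A ⊆ M := by
  classical
  rcases isEmpty_or_nonempty P with hP | hP
  · refine ⟨∅, by simp, fun A _ _ x _ => (hP.false x).elim⟩
  have he : ∀ A : Set P, ∃ e : c.out → P, #A < κ → Φ A ⊆ range e := by
    intro A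
    by_cases hA : #A < κ
    · have h1 : #(Φ A) ≤ #c.out := by simpa using hΦ A hA
      obtain ⟨f⟩ := h1
      refine ⟨Function.extend f Subtype.val (fun _ => Classical.arbitrary P), fun _ x hx => ?_⟩
      exact ⟨f ⟨x, hx⟩, by rw [f.injective.extend_apply]⟩
    · exact ⟨fun _ => Classical.arbitrary P, fun h => (hA h).elim⟩
  choose e he using he
  let α : Type u := κ.ord.ToType × c.out
  let β : α → Type u := fun a => Iio a.1
  let ev : WType β → P := WType.elim P (fun x => e (range x.2) x.1.2)
  refine ⟨range ev, ?_, ?_⟩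
  · refine mk_range_le.trans ?_
    refine WType.cardinalMk_le_of_le ?_
    have h1 : ∀ a : α, c ^ #(β a) ≤ c := fun a =>
      hpow _ (by simpa using mk_Iio_lt a.1)
    refine (sum_le_sum _ (fun _ => c) h1).trans ?_
    rw [sum_const', mk_prod]
    simp only [lift_id, mk_toType, card_ord, mk_out]
    exact (mul_le_mul' (mul_le_mul' hκc le_rfl) le_rfl).trans
      (by rw [mul_eq_self hc, mul_eq_self hc])
  · intro A hA hAκ x hx
    obtain ⟨a, ha⟩ := exists_Iio_card κ _ hAκ
    obtain ⟨eqv⟩ := Cardinal.eq.1 ha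
    have hpre : ∀ y : A, ∃ w : WType β, ev w = y.1 := fun y => hA y.2
    choose w hw using hpre
    obtain ⟨i, hi⟩ := he A hAκ hx
    refine ⟨WType.mk (a, i) (fun b => w (eqv b)), ?_⟩
    have hr : range (fun b : Iio a => ev (w (eqv b))) = A := by
      ext y
      constructor
      · rintro ⟨b, rfl⟩
        simp only [hw]
        exact (eqv b).2
      · intro hy
        refine ⟨eqv.symm ⟨y, hy⟩, ?_⟩
        simp [hw]
    change e (range (fun b : Iio a => ev (w (eqv b)))) i = x
    rw [hr, hi]

end Pool.Agent.H12.Ideals
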