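import Pool.Agent.H12.Ideals.Defs
import Pool.Agent.H12.Ideals.Closure

set_option autoImplicit false

universe u

open Cardinal Set

namespace Pool.Agent.H12.Ideals

variable {P : Type u} [PartialOrder P]

/-- `X` is covered by fewer than `l` ideals of `P`. -/
def Cov (X : Set P) (l : Cardinal.{u}) : Prop :=
  ∃ 𝓕 : Set (Set P), #𝓕 < l ∧ (∀ I ∈ 𝓕, IsIdl I) ∧ X ⊆ ⋃₀ 𝓕

/-- the upper closure. -/
def up (X : Set P) : Set P := {y | ∃ x ∈ X, x ≤ y}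

/-- the lower closure. -/
def dn (X : Set P) : Set P := {y | ∃ x ∈ X, y ≤ x}

theorem isIdl_Iic (x : P) : IsIdl (Iic x) :=
  ⟨fun _ _ h1 h2 => le_trans h1 h2, fun _ ha _ hb => ⟨x, le_rfl, ha, hb⟩⟩

theorem IsIdl.dn_of_directed {X : Set P} (h : DirectedOn (· ≤ ·) X) : IsIdl (dn X) := by
  refine ⟨fun a b hab ⟨x, hx, hax⟩ => ⟨x, hx, hab.trans hax⟩, ?_⟩
  rintro a ⟨x, hx, hax⟩ b ⟨y, hy, hby⟩
  obtain ⟨z, hz, hxz, hyz⟩ := h x hx y hy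
  exact ⟨z, ⟨z, hz, le_rfl⟩, hax.trans hxz, hby.trans hyz⟩

theorem Cov.mono {X Y : Set P} {l l' : Cardinal.{u}} (h : Cov Y l) (hXY : X ⊆ Y) (hl : l ≤ l') :
    Cov X l' := by
  obtain ⟨𝓕, h1, h2, h3⟩ := h
  exact ⟨𝓕, h1.trans_le hl, h2, hXY.trans h3⟩

theorem Cov.dn {X : Set P} {l : Cardinal.{u}} (h : Cov X l) : Cov (dn X) l := by
  obtain ⟨𝓕, h1, h2, h3⟩ := h
  refine ⟨𝓕, h1, h2, ?_⟩
  rintro y ⟨x, hx, hyx⟩
  obtain ⟨I, hI, hxI⟩ := h3 hx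
  exact ⟨I, hI, (h2 I hI).1 hyx hxI⟩

theorem coveredByFewer_iff {l : Cardinal.{u}} : CoveredByFewer l P ↔ Cov (Set.univ : Set P) l := by
  constructor
  · rintro ⟨𝓕, h1, h2, h3⟩
    exact ⟨𝓕, h1, h2, h3.ge⟩
  · rintro ⟨𝓕, h1, h2, h3⟩
    exact ⟨𝓕, h1, h2, univ_subset_iff.1 h3⟩

/-- A covering of the subposet `X` by ideals gives a covering of the set `X` by ideals of `P`. -/
theorem Cov.of_subtype {X : Set P} {l : Cardinal.{u}} (h : CoveredByFewer l X) : Cov X l := by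
  obtain ⟨𝓕, h1, h2, h3⟩ := h
  refine ⟨(fun I : Set X => Ideals.dn (Subtype.val '' I)) '' 𝓕, mk_image_le.trans_lt h1, ?_, ?_⟩
  · rintro _ ⟨I, hI, rfl⟩
    refine IsIdl.dn_of_directed ?_
    rintro _ ⟨a, ha, rfl⟩ _ ⟨b, hb, rfl⟩
    obtain ⟨c, hc, hac, hbc⟩ := (h2 I hI).2 a ha b hb
    exact ⟨c, ⟨c, hc, rfl⟩, hac, hbc⟩
  · intro x hx
    have : (⟨x, hx⟩ : X) ∈ ⋃₀ 𝓕 := by rw [h3]; trivial
    obtain ⟨I, hI, hxI⟩ := this
    exact ⟨_, ⟨I, hI, rfl⟩, x, ⟨_, hxI, rfl⟩, le_rfl⟩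

/-- A subset of small cardinality has its lower closure covered by few ideals. -/
theorem Cov.dn_small {A : Set P} {l : Cardinal.{u}} (h : #A < l) : Cov (Ideals.dn A) l := by
  refine ⟨Iic '' A, mk_image_le.trans_lt h, ?_, ?_⟩
  · rintro _ ⟨a, _, rfl⟩
    exact isIdl_Iic a
  · rintro x ⟨a, ha, hxa⟩
    exact ⟨_, ⟨a, ha, rfl⟩, hxa⟩

theorem Cov.union {X Y : Set P} {l : Cardinal.{u}} (hl : ℵ₀ ≤ l) (hX : Cov X l) (hY : Cov Y l) :
    Cov (X ∪ Y) l := by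
  obtain ⟨𝓕, h1, h2, h3⟩ := hX
  obtain ⟨𝓖, k1, k2, k3⟩ := hY
  refine ⟨𝓕 ∪ 𝓖, (mk_union_le _ _).trans_lt (add_lt_of_lt hl h1 k1), ?_, ?_⟩
  · rintro I (hI | hI)
    · exact h2 I hI
    · exact k2 I hI
  · rw [sUnion_union]
    exact union_subset_union h3 k3

/-! ### The basic lemma -/

/-- the set of elements incomparable to all elements of `A`. -/
def inc (A : Set P) : Set P := {u | ∀ a ∈ A, ¬ a ≤ u ∧ ¬ u ≤ a}

/-- maximal antichains inside a set -/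
theorem exists_maximal_antichain (S : Set P) :
    ∃ A ⊆ S, IsAntichain (· ≤ ·) A ∧
      ∀ u ∈ S, (∀ a ∈ A, ¬ a ≤ u ∧ ¬ u ≤ a) → False := by
  obtain ⟨A, hA⟩ := zorn_subset {A : Set P | A ⊆ S ∧ IsAntichain (· ≤ ·) A} (by
    intro c hc hchain
    refine ⟨⋃₀ c, ⟨sUnion_subset fun s hs => (hc hs).1, ?_⟩, fun s hs => subset_sUnion_of_mem hs⟩
    rintro x ⟨s, hs, hxs⟩ y ⟨t, ht, hyt⟩ hxy
    rcases hchain.total hs ht with hst | hst
    · exact (hc ht).2 (hst hxs) hyt hxy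
    · exact (hc hs).2 hxs (hst hyt) hxy)
  refine ⟨A, hA.prop.1, hA.prop.2, fun u huS hu => ?_⟩
  have huA : u ∉ A := fun h => (hu u h).1 le_rfl
  have h1 : insert u A ⊆ A := by
    refine hA.le_of_ge ⟨insert_subset huS hA.prop.1, ?_⟩ (subset_insert u A)
    refine hA.prop.2.insert ?_ ?_
    · intro b hb _ h
      exact (hu b hb).1 h
    · intro b hb _ h
      exact (hu b hb).2 h
  exact huA (h1 (mem_insert u A))

/-- If all antichains of `P` have size at most `ρ`, then `P` is covered by at most `2 ^ ρ`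
ideals. -/
theorem basic_lemma (ρ : Cardinal.{u}) (hρ : ℵ₀ ≤ ρ)
    (h : ∀ A : Set P, IsAntichain (· ≤ ·) A → #A ≤ ρ) :
    ∃ 𝓕 : Set (Set P), #𝓕 ≤ 2 ^ ρ ∧ (∀ I ∈ 𝓕, IsIdl I) ∧ ⋃₀ 𝓕 = Set.univ := by
  classical
  have hT : ∀ A : Set P, ∃ T : Set P, T ⊆ inc A ∧ T.Finite ∧
      (¬ DirectedOn (· ≤ ·) (inc A) → ∃ u ∈ T, ∃ v ∈ T, ∀ z ∈ inc A, ¬ (u ≤ z ∧ v ≤ z)) := by
    intro A
    by_cases hA : DirectedOn (· ≤ ·) (inc A)
    · exact ⟨∅, empty_subset _, finite_empty, fun h => (h hA).elim⟩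
    · have : ∃ u ∈ inc A, ∃ v ∈ inc A, ∀ z ∈ inc A, ¬ (u ≤ z ∧ v ≤ z) := by
        by_contra hcon
        push Not at hcon
        apply hA
        intro u hu v hv
        obtain ⟨z, hz, h1, h2⟩ := hcon u hu v hv
        exact ⟨z, hz, h1, h2⟩
      obtain ⟨u, hu, v, hv, huv⟩ := this
      refine ⟨{u, v}, ?_, by simp, fun _ => ⟨u, by simp, v, by simp, huv⟩⟩
      rintro z (rfl | rfl)
      · exact hu
      · exact hv
  choose T hT1 hT2 hT3 using hT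
  have h2ρ : ℵ₀ ≤ 2 ^ ρ := hρ.trans (cantor ρ).le
  obtain ⟨M, hM1, hM2⟩ := exists_closed (P := P) (Order.succ ρ) (2 ^ ρ)
    (Order.succ_le_of_lt (cantor ρ)) h2ρ (by
      intro l hl
      rw [← power_mul]
      refine power_le_power_left two_ne_zero ?_
      exact (mul_le_mul' le_rfl (Order.lt_succ_iff.1 hl)).trans (mul_eq_self hρ).le)
    T (fun A _ => ((hT2 A).lt_aleph0.le).trans h2ρ)
  let 𝓖 : Set (Set P) := {A | A ⊆ M ∧ #A ≤ ρ}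
  have h𝓖 : #𝓖 ≤ 2 ^ ρ := by
    refine (mk_bounded_subset_le M ρ).trans ?_
    refine (power_le_power_right (max_le hM1 h2ρ)).trans ?_
    rw [← power_mul, mul_eq_self hρ]
  refine ⟨Iic '' M ∪ (fun A => dn (inc A)) '' {A ∈ 𝓖 | DirectedOn (· ≤ ·) (inc A)}, ?_, ?_, ?_⟩
  · refine (mk_union_le _ _).trans ?_
    refine (add_le_add (mk_image_le.trans hM1) (mk_image_le.trans
      ((mk_le_mk_of_subset (sep_subset _ _)).trans h𝓖))).trans ?_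
    rw [add_eq_self h2ρ]
  · rintro I (⟨m, _, rfl⟩ | ⟨A, ⟨_, hA⟩, rfl⟩)
    · exact isIdl_Iic m
    · exact IsIdl.dn_of_directed hA
  · refine Set.eq_univ_of_forall fun x => ?_
    by_cases hx : ∃ m ∈ M, x ≤ m
    · obtain ⟨m, hm, hxm⟩ := hx
      exact ⟨_, Or.inl ⟨m, hm, rfl⟩, hxm⟩
    push Not at hx
    obtain ⟨A, hAS, hA, hmax⟩ := exists_maximal_antichain {m : P | m ∈ M ∧ ¬ m ≤ x}
    have hAρ := h A hA
    have hAM : A ⊆ M := fun a ha => (hAS ha).1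
    have hxA : x ∈ inc A := fun a ha => ⟨(hAS ha).2, hx a (hAM ha)⟩
    by_cases hd : DirectedOn (· ≤ ·) (inc A)
    · exact ⟨_, Or.inr ⟨A, ⟨⟨hAM, hAρ⟩, hd⟩, rfl⟩, x, hxA, le_rfl⟩
    · exfalso
      obtain ⟨u, hu, v, hv, huv⟩ := hT3 A hd
      have hTM : T A ⊆ M := hM2 A hAM (Order.lt_succ_iff.2 hAρ)
      have key : ∀ w ∈ T A, w ≤ x := by
        intro w hw
        by_contra hwx
        exact hmax w ⟨hTM hw, hwx⟩ (hT1 A hw)
      exact huv x hxA ⟨key u hu, key v hv⟩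

end Pool.Agent.H12.Ideals
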