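import Pool.Agent.H12.Ideals.FFacts

set_option autoImplicit false

universe u

open Cardinal Set

namespace Pool.Agent.H12.Ideals.CH

/-- the index set: blocks of sizes `2 ^ (n + 3)`. -/
abbrev J : Type := Σ n : ℕ, Fin (2 ^ (n + 3))

/-- weights. -/
noncomputable def w (j : J) : ENNReal := ((2 : ENNReal) ^ (j.1 + 3))⁻¹

/-- the total weight of a set. -/
noncomputable def W (x : Set J) : ENNReal := ∑' j, x.indicator w j

theorem W_mono {x y : Set J} (h : x ⊆ y) : W x ≤ W y :=
  ENNReal.tsum_le_tsum fun j => indicator_le_indicator_of_subset h (fun _ => zero_le) j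

theorem W_union_le (x y : Set J) : W (x ∪ y) ≤ W x + W y := by
  unfold W
  rw [← ENNReal.tsum_add]
  refine ENNReal.tsum_le_tsum fun j => ?_
  by_cases hx : j ∈ x
  · rw [indicator_of_mem (show j ∈ x ∪ y from Or.inl hx), indicator_of_mem hx]
    exact le_self_add
  · by_cases hy : j ∈ y
    · rw [indicator_of_mem (show j ∈ x ∪ y from Or.inr hy), indicator_of_mem hy]
      exact le_add_self
    · rw [indicator_of_notMem (by simp [hx, hy])]
      exact zero_le

theorem W_iUnion_le (x : ℕ → Set J) : W (⋃ m, x m) ≤ ∑' m, W (x m) := by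
  unfold W
  rw [ENNReal.tsum_comm]
  refine ENNReal.tsum_le_tsum fun j => ?_
  by_cases hj : j ∈ ⋃ m, x m
  · obtain ⟨m, hm⟩ := mem_iUnion.1 hj
    rw [indicator_of_mem hj]
    refine le_trans ?_ (ENNReal.le_tsum m)
    rw [indicator_of_mem hm]
  · rw [indicator_of_notMem hj]
    exact zero_le

theorem W_singleton (j : J) : W {j} = w j := by
  unfold W
  rw [tsum_eq_single j]
  · simp
  · intro k hk
    exact indicator_of_notMem (by simpa using hk) _

/-- the `n`-th block -/
def K (n : ℕ) : Set J := {j | j.1 = n}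

theorem K_finite (n : ℕ) : (K n).Finite := by
  have : K n = (fun i : Fin (2 ^ (n + 3)) => (⟨n, i⟩ : J)) '' Set.univ := by
    ext ⟨m, i⟩
    simp only [K, mem_ofPred_eq, image_univ, mem_range]
    constructor
    · rintro rfl
      exact ⟨i, rfl⟩
    · rintro ⟨i', hi'⟩
      exact (congrArg Sigma.fst hi').symm
  rw [this]
  exact finite_univ.image _

theorem one_le_W_K (n : ℕ) : 1 ≤ W (K n) := by
  unfold W
  rw [ENNReal.tsum_sigma (f := fun (n' : ℕ) (i : Fin (2 ^ (n' + 3))) =>
    (K n).indicator w (⟨n', i⟩ : J))]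
  refine le_trans ?_ (ENNReal.le_tsum n)
  rw [tsum_fintype]
  have h1 : ∀ i : Fin (2 ^ (n + 3)), (K n).indicator w (⟨n, i⟩ : J) = ((2 : ENNReal) ^ (n + 3))⁻¹ :=
    fun i => by rw [indicator_of_mem (show (⟨n, i⟩ : J) ∈ K n from rfl)]; rfl
  simp only [h1, Finset.sum_const, Finset.card_univ, Fintype.card_fin, nsmul_eq_mul]
  push_cast
  rw [ENNReal.mul_inv_cancel]
  · positivity
  · exact ENNReal.pow_ne_top (by simp)

/-- sets of finite weight are approximated by finite sets -/
theorem exists_finset (x : Set J) (hx : W x ≠ ⊤) (ε : ENNReal) (hε : ε ≠ 0) :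
    ∃ s : Finset J, (s : Set J) ⊆ x ∧ W (x \ s) < ε := by
  classical
  have h1 := ENNReal.tendsto_tsum_compl_atTop_zero (f := x.indicator w) hx
  have h2 := (h1.eventually (gt_mem_nhds (pos_iff_ne_zero.2 hε))).exists
  obtain ⟨s, hs⟩ := h2
  refine ⟨s.filter (· ∈ x), ?_, lt_of_le_of_lt ?_ hs⟩
  · intro j hj
    exact (Finset.mem_filter.1 hj).2
  · have h3 : (∑' b : { b // b ∉ s }, x.indicator w b) =
        ∑' j, ({b | b ∉ s} : Set J).indicator (x.indicator w) j := by
      rw [← tsum_subtype]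
      rfl
    rw [h3]
    refine ENNReal.tsum_le_tsum fun j => ?_
    by_cases hj : j ∈ x \ (s.filter (· ∈ x) : Finset J)
    · have hjs : j ∈ ({b | b ∉ s} : Set J) := by
        intro h
        exact hj.2 (Finset.mem_coe.2 (Finset.mem_filter.2 ⟨h, hj.1⟩))
      rw [indicator_of_mem hj, indicator_of_mem hjs, indicator_of_mem hj.1]
    · rw [indicator_of_notMem hj]
      exact zero_le

end Pool.Agent.H12.Ideals.CH
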