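import Pool.Agent.H12.Ideals.CH1

set_option autoImplicit false

universe u

open Cardinal Set

namespace Pool.Agent.H12.Ideals.CH

theorem inv_two_le : (2 : ENNReal)⁻¹ ≤ 1 - (4 : ENNReal)⁻¹ := by
  refine ENNReal.le_sub_of_add_le_right (by simp) ?_
  calc (2 : ENNReal)⁻¹ + 4⁻¹ ≤ 2⁻¹ + 2⁻¹ := by
        gcongr
        norm_num
    _ = 1 := ENNReal.inv_two_add_inv_two

/-- the allowed change at stage `m` -/
noncomputable def δ (m : ℕ) : ENNReal := (4 : ENNReal)⁻¹ ^ (m + 1)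

theorem tsum_δ (m : ℕ) : ∑' k, δ (m + 1 + k) ≤ 2⁻¹ * δ m := by
  have h1 : ∀ k, δ (m + 1 + k) = δ (m + 1) * (4 : ENNReal)⁻¹ ^ k := by
    intro k
    unfold δ
    rw [← pow_add]
    congr 1
    ring
  simp only [h1]
  rw [ENNReal.tsum_mul_left, ENNReal.tsum_geometric]
  have h2 : (1 - (4 : ENNReal)⁻¹)⁻¹ ≤ 2 := by
    rw [ENNReal.inv_le_iff_inv_le]
    exact inv_two_le
  have h3 : δ (m + 1) = 4⁻¹ * δ m := by
    unfold δ
    rw [pow_succ' _ (m + 1)]
  calc δ (m + 1) * (1 - (4 : ENNReal)⁻¹)⁻¹ ≤ (4⁻¹ * δ m) * 2 := by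
        rw [h3]; gcongr
    _ = (4⁻¹ * 2) * δ m := by ring
    _ ≤ 2⁻¹ * δ m := by
        gcongr
        have : (4 : ENNReal) = 2 * 2 := by norm_num
        rw [this, ENNReal.mul_inv (by simp) (by simp), mul_assoc,
          ENNReal.inv_mul_cancel (by simp) (by simp), mul_one]

theorem tsum_δ' : ∑' k, δ k ≤ 2⁻¹ := by
  have h1 : ∀ k, δ k = 4⁻¹ * (4 : ENNReal)⁻¹ ^ k := by
    intro k
    unfold δ
    rw [pow_succ']
  simp only [h1]
  rw [ENNReal.tsum_mul_left, ENNReal.tsum_geometric]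
  have h2 : (1 - (4 : ENNReal)⁻¹)⁻¹ ≤ 2 := by
    rw [ENNReal.inv_le_iff_inv_le]
    exact inv_two_le
  calc (4 : ENNReal)⁻¹ * (1 - (4 : ENNReal)⁻¹)⁻¹ ≤ 4⁻¹ * 2 := by gcongr
    _ = 2⁻¹ := by
        have : (4 : ENNReal) = 2 * 2 := by norm_num
        rw [this, ENNReal.mul_inv (by simp) (by simp), mul_assoc,
          ENNReal.inv_mul_cancel (by simp) (by simp), mul_one]

theorem δ_pos (m : ℕ) : δ m ≠ 0 := by
  unfold δ
  exact pow_ne_zero _ (by simp)

theorem δ_ne_top (m : ℕ) : δ m ≠ ⊤ := by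
  unfold δ
  exact ENNReal.pow_ne_top (by simp)

/-- the fusion lemma -/
theorem fusion (x0 : Set J) (S : ℕ → Set (Set J)) :
    ∃ x, x0 ⊆ x ∧ W x ≤ W x0 + 2⁻¹ ∧
      ∀ m, (∃ s ∈ S m, s ⊆ x) ∨ ∃ ε ≠ 0, ∀ s ∈ S m, ε ≤ W (s \ x) := by
  classical
  let step : ℕ → Set J → Set J := fun m y =>
    if h : ∃ s ∈ S m, W (s \ y) ≤ δ m then y ∪ h.choose else y
  let X : ℕ → Set J := fun m => Nat.rec x0 (fun k y => step k y) m
  have hX0 : X 0 = x0 := rfl
  have hXs : ∀ m, X (m + 1) = step m (X m) := fun m => rfl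
  have hstep : ∀ m y, y ⊆ step m y := by
    intro m y
    simp only [step]
    split_ifs with h
    · exact subset_union_left
    · exact subset_rfl
  have hstepW : ∀ m y, W (step m y \ y) ≤ δ m := by
    intro m y
    simp only [step]
    split_ifs with h
    · refine (W_mono ?_).trans h.choose_spec.2
      intro j hj
      rcases hj with ⟨h1 | h1, h2⟩
      · exact (h2 h1).elim
      · exact ⟨h1, h2⟩
    · rw [sdiff_self]
      have : W (∅ : Set J) = 0 := by simp [W]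
      change W (∅ : Set J) ≤ _
      rw [this]
      exact zero_le
  have hmono : Monotone X := monotone_nat_of_le_succ fun m => hstep m (X m)
  -- total change after stage `m`
  have htail : ∀ m, W ((⋃ k, X k) \ X m) ≤ ∑' k, δ (m + k) := by
    intro m
    have h1 : (⋃ k, X k) \ X m ⊆ ⋃ k, (X (m + k + 1) \ X (m + k)) := by
      rintro j ⟨hj, hjm⟩
      obtain ⟨k, hk⟩ := mem_iUnion.1 hj
      -- the least stage
      obtain ⟨k0, hk0, hmin⟩ : ∃ k0, j ∈ X k0 ∧ ∀ i < k0, j ∉ X i :=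
        ⟨sInf {k | j ∈ X k}, Nat.sInf_mem (s := {k | j ∈ X k}) ⟨k, hk⟩,
          fun i hi => Nat.notMem_of_lt_sInf (s := {k | j ∈ X k}) hi⟩
      have hlt : m < k0 := by
        by_contra hcon
        exact hjm (hmono (not_lt.1 hcon) hk0)
      obtain ⟨d, hd⟩ := Nat.exists_eq_add_of_lt hlt
      refine mem_iUnion.2 ⟨d, ?_, ?_⟩
      · rw [← hd]
        exact hk0
      · exact hmin _ (by omega)
    refine (W_mono h1).trans ((W_iUnion_le _).trans ?_)
    refine ENNReal.tsum_le_tsum fun k => ?_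
    rw [hXs]
    exact hstepW _ _
  refine ⟨⋃ k, X k, subset_iUnion X 0, ?_, ?_⟩
  · have h1 : (⋃ k, X k) ⊆ x0 ∪ ((⋃ k, X k) \ X 0) := by
      intro j hj
      by_cases hj0 : j ∈ x0
      · exact Or.inl hj0
      · exact Or.inr ⟨hj, hj0⟩
    refine (W_mono h1).trans ((W_union_le _ _).trans ?_)
    gcongr
    refine (htail 0).trans ?_
    simp only [Nat.zero_add]
    exact tsum_δ'
  · intro m
    by_cases h : ∃ s ∈ S m, W (s \ X m) ≤ δ m
    · left
      refine ⟨h.choose, h.choose_spec.1, ?_⟩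
      refine subset_trans ?_ (subset_iUnion X (m + 1))
      rw [hXs]
      simp only [step]
      rw [dif_pos h]
      exact subset_union_right
    · right
      refine ⟨2⁻¹ * δ m, mul_ne_zero (by simp) (δ_pos m), fun s hs => ?_⟩
      by_contra hcon
      rw [not_le] at hcon
      apply h
      refine ⟨s, hs, ?_⟩
      have hXm : X (m + 1) = X m := by
        rw [hXs]
        simp only [step]
        rw [dif_neg h]
      have h1 : s \ X m ⊆ (s \ ⋃ k, X k) ∪ ((⋃ k, X k) \ X (m + 1)) := by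
        rintro j ⟨hj, hjm⟩
        by_cases hjX : j ∈ ⋃ k, X k
        · refine Or.inr ⟨hjX, ?_⟩
          rw [hXm]; exact hjm
        · exact Or.inl ⟨hj, hjX⟩
      refine (W_mono h1).trans ((W_union_le _ _).trans ?_)
      have h2 := (htail (m + 1)).trans (tsum_δ m)
      calc W (s \ ⋃ k, X k) + W ((⋃ k, X k) \ X (m + 1)) ≤ 2⁻¹ * δ m + 2⁻¹ * δ m :=
            add_le_add hcon.le h2
        _ = δ m := by
            rw [← add_mul, ENNReal.inv_two_add_inv_two, one_mul]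

/-- a countable dense subfamily -/
theorem exists_countable_dense {Ω : Type} (x : Ω → Set J) (hx : ∀ a, W (x a) ≠ ⊤)
    (A : Set Ω) : ∃ S ⊆ A, S.Countable ∧ ∀ a ∈ A, ∀ ε ≠ 0, ∃ s ∈ S, W (x s \ x a) < ε := by
  classical
  let C : Finset J × ℕ → Set Ω := fun p =>
    {a ∈ A | (p.1 : Set J) ⊆ x a ∧ W (x a \ p.1) < ((p.2 : ENNReal) + 1)⁻¹}
  let S : Set Ω := ⋃ p, if h : (C p).Nonempty then {h.choose} else ∅
  refine ⟨S, ?_, ?_, ?_⟩
  · refine iUnion_subset fun p => ?_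
    split_ifs with h
    · rintro a rfl
      exact h.choose_spec.1
    · exact empty_subset _
  · refine countable_iUnion fun p => ?_
    split_ifs with h
    · exact countable_singleton _
    · exact countable_empty
  · intro a ha ε hε
    obtain ⟨k, hk⟩ : ∃ k : ℕ, ((k : ENNReal) + 1)⁻¹ < ε := by
      obtain ⟨k, hk⟩ := ENNReal.exists_inv_nat_lt hε
      refine ⟨k, lt_of_le_of_lt ?_ hk⟩
      rw [ENNReal.inv_le_inv]
      exact le_self_add
    obtain ⟨F, hF1, hF2⟩ := exists_finset (x a) (hx a) ((k : ENNReal) + 1)⁻¹ (by simp)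
    have hne : (C (F, k)).Nonempty := ⟨a, ha, hF1, hF2⟩
    refine ⟨hne.choose, mem_iUnion.2 ⟨(F, k), ?_⟩, ?_⟩
    · rw [dif_pos hne]; rfl
    · have h1 := hne.choose_spec.2.2
      refine lt_of_le_of_lt (W_mono ?_) (h1.trans hk)
      intro j hj
      exact ⟨hj.1, fun h => hj.2 (hF1 h)⟩

end Pool.Agent.H12.Ideals.CH
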