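import Pool.Agent.H12.Ideals.CH2

set_option autoImplicit false

universe u

open Cardinal Set

namespace Pool.Agent.H12.Ideals.CH

/-- the first uncountable ordinal as a type -/
abbrev Ω : Type := (ℵ₁ : Cardinal.{0}).ord.ToType

theorem mk_Ω : #Ω = ℵ₁ := by simp

theorem countable_Iio (γ : Ω) : (Iio γ).Countable := by
  have h : #(Iio γ) < ℵ₁ := by simpa using mk_Iio_lt γ
  rw [← Cardinal.le_aleph0_iff_set_countable]
  rw [← Order.lt_succ_iff, succ_aleph0]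
  exact h

theorem countable_Iic (γ : Ω) : (Iic γ).Countable := by
  rw [← Iio_union_right]
  exact (countable_Iio γ).union (countable_singleton γ)

theorem W_diag (r : ℕ → J) : W {j | ∃ m, r m = j ∧ r m ∈ K m} ≤ 4⁻¹ := by
  have h1 : {j | ∃ m, r m = j ∧ r m ∈ K m} = ⋃ m, {j | r m = j ∧ r m ∈ K m} := by
    ext j; simp
  rw [h1]
  refine (W_iUnion_le _).trans ?_
  have h2 : ∀ m, W {j | r m = j ∧ r m ∈ K m} ≤ ((2 : ENNReal)⁻¹) ^ (m + 3) := by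
    intro m
    by_cases h : r m ∈ K m
    · have : {j | r m = j ∧ r m ∈ K m} = {r m} := by
        ext j
        simp only [mem_ofPred_eq, mem_singleton_iff]
        constructor
        · rintro ⟨h1, _⟩; exact h1.symm
        · rintro rfl; exact ⟨rfl, h⟩
      rw [this, W_singleton]
      have h3 : (r m).1 = m := h
      simp only [w]
      rw [h3, ENNReal.inv_pow]
    · have : {j | r m = j ∧ r m ∈ K m} = ∅ := by
        ext j
        simp [h]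
      rw [this]
      have : W (∅ : Set J) = 0 := by simp [W]
      rw [this]
      exact zero_le
  refine (ENNReal.tsum_le_tsum h2).trans ?_
  have h3 : ∀ m, ((2 : ENNReal)⁻¹) ^ (m + 3) = (2⁻¹) ^ 3 * (2⁻¹) ^ m := by
    intro m
    rw [← pow_add]
    congr 1
    ring
  rw [tsum_congr h3, ENNReal.tsum_mul_left, ENNReal.tsum_geometric, ENNReal.one_sub_inv_two,
    inv_inv, pow_succ, mul_assoc, ENNReal.inv_mul_cancel (by simp) (by simp), mul_one,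
    ← ENNReal.inv_pow]
  norm_num

/-- the family -/
theorem exists_family (hCH : (𝔠 : Cardinal.{0}) = ℵ₁) :
    ∃ x : Ω → Set J, (∀ γ, W (x γ) < 1) ∧
      (∀ r : ℕ → J, ∃ γ, ∀ m, r m ∈ K m → r m ∈ x γ) ∧
      (∀ c : ℕ → Ω, ∃ ξ : Ω, ∀ γ, ξ < γ → (∀ n, c n < γ) →
        (∃ n, x (c n) ⊆ x γ) ∨ ∃ ε ≠ 0, ∀ n, ε ≤ W (x (c n) \ x γ)) := by
  classical
  have hc1 : #(ℕ → J) ≤ #Ω := by
    rw [mk_Ω, ← hCH]
    have : #J ≤ ℵ₀ := mk_le_aleph0
    calc #(ℕ → J) = #J ^ #ℕ := by rw [← power_def]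
      _ ≤ ℵ₀ ^ (ℵ₀ : Cardinal.{0}) := by
          rw [mk_nat]
          exact power_le_power_right this
      _ = 𝔠 := by simp
  have hc2 : #(ℕ → Ω) ≤ #Ω := by
    rw [mk_Ω]
    calc #(ℕ → Ω) = #Ω ^ #ℕ := by rw [← power_def]
      _ = 𝔠 ^ (ℵ₀ : Cardinal.{0}) := by rw [mk_nat, mk_Ω, hCH]
      _ = 𝔠 := by simp
      _ ≤ ℵ₁ := hCH.le
  have hJ : Nonempty J := ⟨⟨0, 0⟩⟩
  have hΩ : Nonempty Ω := by
    rw [← mk_ne_zero_iff, mk_Ω]
    exact (aleph0_pos.trans_le (aleph0_le_aleph 1)).ne'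
  obtain ⟨e, he⟩ : ∃ e : Ω → (ℕ → J), Function.Surjective e := by
    obtain ⟨f⟩ := hc1
    exact ⟨Function.invFun f, Function.invFun_surjective f.injective⟩
  obtain ⟨c, hc⟩ : ∃ c : Ω → (ℕ → Ω), Function.Surjective c := by
    obtain ⟨f⟩ := hc2
    exact ⟨Function.invFun f, Function.invFun_surjective f.injective⟩
  obtain ⟨x, hx⟩ := rec_choice (α := Set J) (fun a b : Ω => a < b) wellFounded_lt
    (fun γ f a => W a < 1 ∧ (∀ m, e γ m ∈ K m → e γ m ∈ a) ∧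
      ∀ ξ, ξ < γ → ∀ h : (∀ n, c ξ n < γ),
        (∃ n, f ⟨c ξ n, h n⟩ ⊆ a) ∨ ∃ ε ≠ 0, ∀ n, ε ≤ W (f ⟨c ξ n, h n⟩ \ a)) (by
    intro γ f hf
    obtain ⟨g, hg⟩ := ((countable_iff_exists_injective _).1 (countable_Iio γ).to_subtype :
      ∃ g : Iio γ → ℕ, Function.Injective g)
    obtain ⟨a, ha0, haW, ha⟩ := fusion {j | ∃ m, e γ m = j ∧ e γ m ∈ K m}
      (fun m => {s | ∃ ξ : Iio γ, g ξ = m ∧ (∀ n, c ξ.1 n < γ) ∧ ∃ n, s = f (c ξ.1 n)})
    refine ⟨a, ?_, ?_, ?_⟩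
    · refine haW.trans_lt ?_
      calc W {j | ∃ m, e γ m = j ∧ e γ m ∈ K m} + 2⁻¹ ≤ 4⁻¹ + 2⁻¹ := by
            gcongr
            exact W_diag (e γ)
        _ < 2⁻¹ + 2⁻¹ := by
            refine ENNReal.add_lt_add_right (by simp) ?_
            rw [ENNReal.inv_lt_inv]
            norm_num
        _ = 1 := ENNReal.inv_two_add_inv_two
    · intro m hm
      exact ha0 ⟨m, rfl, hm⟩
    · intro ξ hξ h
      rcases ha (g ⟨ξ, hξ⟩) with ⟨s, ⟨ξ', hξ', _, n, hn⟩, hs⟩ | ⟨ε, hε, hs⟩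
      · left
        have h2 : ξ' = ⟨ξ, hξ⟩ := hg hξ'
        subst h2
        refine ⟨n, ?_⟩
        change f (c ξ n) ⊆ a
        rw [hn] at hs
        exact hs
      · right
        exact ⟨ε, hε, fun n => hs _ ⟨⟨ξ, hξ⟩, rfl, h, n, rfl⟩⟩)
  refine ⟨x, fun γ => (hx γ).1, ?_, ?_⟩
  · intro r
    obtain ⟨γ, hγ⟩ := he r
    refine ⟨γ, fun m hm => ?_⟩
    rw [← hγ] at hm ⊢
    exact (hx γ).2.1 m hm
  · intro c'
    obtain ⟨ξ, hξ⟩ := hc c'
    refine ⟨ξ, fun γ hγ hn => ?_⟩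
    subst hξ
    exact (hx γ).2.2 ξ hγ hn

end Pool.Agent.H12.Ideals.CH
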