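import Pool.Agent.H12.Ideals.CH3

set_option autoImplicit false

universe u

open Cardinal Set

namespace Pool.Agent.H12.Ideals.CH

theorem exists_mem_of_directed {I : Set (Set J)} (hne : I.Nonempty) (hd : DirectedOn (· ≤ ·) I)
    (s : Set J) (hs : s.Finite) (hsI : s ⊆ ⋃₀ I) : ∃ y ∈ I, s ⊆ y := by
  classical
  induction s, hs using Set.Finite.induction_on with
  | empty =>
    obtain ⟨y, hy⟩ := hne
    exact ⟨y, hy, empty_subset _⟩
  | insert _ _ ih =>
    rename_i a s _ _
    obtain ⟨y, hy, hsy⟩ := ih ((subset_insert _ _).trans hsI)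
    obtain ⟨z, hz, haz⟩ := hsI (mem_insert a s)
    obtain ⟨t, ht, hyt, hzt⟩ := hd y hy z hz
    exact ⟨t, ht, insert_subset (hzt haz) (hsy.trans hyt)⟩

theorem exists_poset (hCH : (𝔠 : Cardinal.{0}) = ℵ₁) :
    ∃ (P : Type u) (_ : PartialOrder P), InD ℵ₁ P ∧ ¬ CoveredByFewer ℵ₁ P := by
  classical
  obtain ⟨x, hx1, hx2, hx3⟩ := exists_family hCH
  have hJ : Nonempty J := ⟨⟨0, 0⟩⟩
  have hΩ : Nonempty Ω := by
    rw [← mk_ne_zero_iff, mk_Ω]
    exact (aleph0_pos.trans_le (aleph0_le_aleph 1)).ne'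
  refine ⟨ULift.{u} (range x), inferInstance, ?_, ?_⟩
  · intro A hA hcard
    -- choose indices
    have hidx : ∀ v : ULift.{u} (range x), ∃ γ, x γ = v.down.1 := fun v => v.down.2
    choose i hi using hidx
    have hinj : Function.Injective i := by
      intro v v' h
      have : v.down.1 = v'.down.1 := by rw [← hi v, ← hi v', h]
      exact ULift.ext _ _ (Subtype.ext this)
    obtain ⟨S, hSA, hS, hdense⟩ := exists_countable_dense x (fun a => ((hx1 a).trans
      ENNReal.one_lt_top).ne) (i '' A)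
    -- `i '' A` is uncountable
    have hunc : ¬ (i '' A).Countable := by
      intro h
      have h2 : A.Countable := Set.countable_of_injective_of_countable_image hinj.injOn h
      have h3 := (Cardinal.le_aleph0_iff_set_countable).2 h2
      rw [hcard] at h3
      exact absurd (aleph0_lt_aleph_one) (not_lt.2 h3)
    have hSne : S.Nonempty := by
      have : (i '' A).Nonempty := by
        by_contra hemp
        rw [Set.not_nonempty_iff_eq_empty] at hemp
        exact hunc (by rw [hemp]; exact countable_empty)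
      obtain ⟨a, ha⟩ := this
      obtain ⟨s, hs, _⟩ := hdense a ha 1 one_ne_zero
      exact ⟨s, hs⟩
    obtain ⟨c, hc⟩ := hS.exists_eq_range hSne
    obtain ⟨ξ, hξ⟩ := hx3 c
    have hcount : (Iic ξ ∪ ⋃ n, Iic (c n)).Countable :=
      (countable_Iic ξ).union (countable_iUnion fun n => countable_Iic (c n))
    obtain ⟨γ, hγA, hγ⟩ : ∃ γ ∈ i '' A, γ ∉ (Iic ξ ∪ ⋃ n, Iic (c n)) := by
      by_contra hcon
      push Not at hcon
      exact hunc (hcount.mono hcon)
    have hγξ : ξ < γ := by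
      by_contra h
      exact hγ (Or.inl (not_lt.1 h))
    have hγc : ∀ n, c n < γ := by
      intro n
      by_contra h
      exact hγ (Or.inr (mem_iUnion.2 ⟨n, not_lt.1 h⟩))
    rcases hξ γ hγξ hγc with ⟨n, hn⟩ | ⟨ε, hε, hn⟩
    · obtain ⟨v, hv, hvγ⟩ := hγA
      have hcn : c n ∈ i '' A := hSA (by rw [hc]; exact ⟨n, rfl⟩)
      obtain ⟨v', hv', hvc⟩ := hcn
      have hne : v' ≠ v := by
        rintro rfl
        rw [hvc] at hvγ
        exact (hγc n).ne hvγ
      refine hA hv' hv hne ?_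
      change v'.down.1 ⊆ v.down.1
      rw [← hi v, ← hi v', hvγ, hvc]
      exact hn
    · obtain ⟨s, hs, hsW⟩ := hdense γ hγA ε hε
      rw [hc] at hs
      obtain ⟨n, rfl⟩ := hs
      exact absurd hsW (not_lt.2 (hn n))
  · rintro ⟨𝓕, h1, h2, h3⟩
    have hcount : 𝓕.Countable := by
      rw [← Cardinal.le_aleph0_iff_set_countable, ← Order.lt_succ_iff, succ_aleph0]
      exact h1
    have hne : 𝓕.Nonempty := by
      by_contra hemp
      rw [Set.not_nonempty_iff_eq_empty] at hemp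
      have : (⟨⟨x (Classical.arbitrary Ω), _, rfl⟩⟩ : ULift.{u} (range x)) ∈ ⋃₀ 𝓕 := by
        rw [h3]; trivial
      rw [hemp] at this
      simp at this
    obtain ⟨I, hI⟩ := hcount.exists_eq_range hne
    -- the union of an ideal misses a point of each block
    have hmiss : ∀ m n, ∃ j ∈ K n, ∀ v ∈ I m, j ∉ v.down.1 := by
      intro m n
      by_contra hcon
      push Not at hcon
      have hIm : IsIdl (I m) := h2 _ (by rw [hI]; exact ⟨m, rfl⟩)
      have hKne : (K n).Nonempty := by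
        by_contra hemp
        rw [Set.not_nonempty_iff_eq_empty] at hemp
        have := one_le_W_K n
        rw [hemp] at this
        simp [W] at this
      obtain ⟨y, hy, hKy⟩ := exists_mem_of_directed (I := (fun v => v.down.1) '' I m)
        (by
          obtain ⟨j, hj⟩ := hKne
          obtain ⟨v, hv, _⟩ := hcon j hj
          exact ⟨_, v, hv, rfl⟩)
        (by
          rintro _ ⟨a, ha, rfl⟩ _ ⟨b, hb, rfl⟩
          obtain ⟨c, hc, hac, hbc⟩ := hIm.2 a ha b hb
          exact ⟨_, ⟨c, hc, rfl⟩, hac, hbc⟩)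
        (K n) (K_finite n) (by
          intro j hj
          obtain ⟨v, hv, hjv⟩ := hcon j hj
          exact ⟨_, ⟨v, hv, rfl⟩, hjv⟩)
      obtain ⟨v, _, rfl⟩ := hy
      obtain ⟨γ, hγ⟩ := v.down.2
      have h5 : 1 ≤ W (v.down.1) := (one_le_W_K n).trans (W_mono hKy)
      rw [← hγ] at h5
      exact absurd (hx1 γ) (not_lt.2 h5)
    choose j hjK hj using hmiss
    obtain ⟨γ, hγ⟩ := hx2 (fun m => j m m)
    have hmem : (⟨⟨x γ, γ, rfl⟩⟩ : ULift.{u} (range x)) ∈ ⋃₀ 𝓕 := by rw [h3]; trivial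
    obtain ⟨I', hI', hxI⟩ := hmem
    rw [hI] at hI'
    obtain ⟨m, rfl⟩ := hI'
    exact hj m m _ hxI (hγ m (hjK m m))

theorem F_aleph_one (hCH : (𝔠 : Cardinal.{u}) = ℵ₁) : F (ℵ₁ : Cardinal.{u}) = ℵ_ 2 := by
  have hCH0 : (𝔠 : Cardinal.{0}) = ℵ₁ := by
    have h : lift.{u} (𝔠 : Cardinal.{0}) = lift.{u} (ℵ₁ : Cardinal.{0}) := by
      simpa using hCH
    exact lift_injective h
  have h2 : (ℵ_ 2 : Cardinal.{u}) = Order.succ ℵ₁ := by
    rw [succ_aleph]
    congr 1
    norm_num
  apply le_antisymm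
  · refine csInf_le' fun P _ hP => ?_
    obtain ⟨𝓕, g1, g2, g3⟩ := basic_lemma (P := P) ℵ₀ le_rfl (fun A hA => by
      rw [← Order.lt_succ_iff, succ_aleph0]
      exact hP.lt hA)
    refine ⟨𝓕, ?_, g2, g3⟩
    refine g1.trans_lt ?_
    rw [two_power_aleph0, hCH, h2]
    exact Order.lt_succ _
  · rw [h2, Order.succ_le_iff]
    by_contra hcon
    push Not at hcon
    obtain ⟨P, _, hP, hnP⟩ := exists_poset.{u} hCH0
    apply hnP
    have h3 := F_spec (P := P) (μ := ℵ₁) (aleph0_le_aleph 1) hP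
    rw [coveredByFewer_iff] at h3 ⊢
    exact h3.mono subset_rfl hcon

end Pool.Agent.H12.Ideals.CH
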