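import Mathlib

set_option autoImplicit false

universe u

open Cardinal Set

namespace Pool.Agent.H12.Ideals

/-- `P ∈ D(μ)`: the partial order `P` has no antichain (set of pairwise incomparable elements)
of cardinality `μ`. -/
def InD (μ : Cardinal.{u}) (P : Type u) [PartialOrder P] : Prop :=
  ∀ A : Set P, IsAntichain (· ≤ ·) A → #A ≠ μ

/-- An ideal of `P`: an initial segment that is up-directed. -/
def IsIdl {P : Type u} [PartialOrder P] (I : Set P) : Prop :=
  IsLowerSet I ∧ DirectedOn (· ≤ ·) I

/-- `P` can be covered by fewer than `l` ideals. -/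
def CoveredByFewer (l : Cardinal.{u}) (P : Type u) [PartialOrder P] : Prop :=
  ∃ 𝓕 : Set (Set P), #𝓕 < l ∧ (∀ I ∈ 𝓕, IsIdl I) ∧ ⋃₀ 𝓕 = Set.univ

/-- `F μ` is the least cardinal `l` such that every `P ∈ D(μ)` can be covered by fewer than `l`
ideals. -/
noncomputable def F (μ : Cardinal.{u}) : Cardinal.{u} :=
  sInf {l | ∀ (P : Type u) [PartialOrder P], InD μ P → CoveredByFewer l P}

/-- The tree property of `κ`, in terms of inverse systems: an inverse system indexed by `κ`
of nonempty sets of cardinality less than `κ` has a thread (coherent sequence). -/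
def TreeProperty (κ : Cardinal.{u}) : Prop :=
  ∀ (T : κ.ord.ToType → Type u) (π : ∀ a b : κ.ord.ToType, a ≤ b → T b → T a),
    (∀ a x, π a a le_rfl x = x) →
    (∀ a b c (hab : a ≤ b) (hbc : b ≤ c) x, π a b hab (π b c hbc x) = π a c (hab.trans hbc) x) →
    (∀ a, Nonempty (T a)) → (∀ a, #(T a) < κ) →
    ∃ s : ∀ a, T a, ∀ a b (hab : a ≤ b), π a b hab (s b) = s a

/-- `κ` is weakly compact: strongly inaccessible (in particular uncountable) with the tree
property. -/
def WeaklyCompact (κ : Cardinal.{u}) : Prop := κ.IsInaccessible ∧ TreeProperty κ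

end Pool.Agent.H12.Ideals
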