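import Pool.Agent.H12.Ideals.Basic

set_option autoImplicit false

universe u

open Cardinal Set

namespace Pool.Agent.H12.Ideals

variable {P : Type u} [PartialOrder P]

theorem IsAntichain.exists_subset_card {A : Set P} (hA : IsAntichain (· ≤ ·) A)
    {l : Cardinal.{u}} (hl : l ≤ #A) : ∃ B ⊆ A, IsAntichain (· ≤ ·) B ∧ #B = l := by
  obtain ⟨B, hB, hBl⟩ := le_mk_iff_exists_subset.1 hl
  exact ⟨B, hB, hA.subset hB, hBl⟩

theorem InD.lt {μ : Cardinal.{u}} (h : InD μ P) {A : Set P} (hA : IsAntichain (· ≤ ·) A) :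
    #A < μ := by
  by_contra hcon
  obtain ⟨B, _, hB, hBl⟩ := IsAntichain.exists_subset_card hA (not_lt.1 hcon)
  exact h B hB hBl

theorem InD.mono {μ μ' : Cardinal.{u}} (h : InD μ P) (hle : μ ≤ μ') : InD μ' P :=
  fun _ hA hcard => ((h.lt hA).trans_le hle).ne hcard

theorem InD.subtype {μ : Cardinal.{u}} (h : InD μ P) (X : Set P) : InD μ X := by
  intro A hA hcard
  refine h (Subtype.val '' A) ?_ ?_
  · rintro _ ⟨a, ha, rfl⟩ _ ⟨b, hb, rfl⟩ hab hle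
    exact hA ha hb (fun h => hab (by rw [h])) hle
  · rw [mk_image_eq Subtype.val_injective, hcard]

theorem F_set_nonempty {μ : Cardinal.{u}} (hμ : ℵ₀ ≤ μ) :
    {l | ∀ (P : Type u) [PartialOrder P], InD μ P → CoveredByFewer l P}.Nonempty := by
  refine ⟨Order.succ (2 ^ μ), fun P _ hP => ?_⟩
  obtain ⟨𝓕, h1, h2, h3⟩ := basic_lemma (P := P) μ hμ (fun A hA => (hP.lt hA).le)
  exact ⟨𝓕, Order.lt_succ_iff.2 h1, h2, h3⟩

theorem F_le_succ {μ : Cardinal.{u}} (hμ : ℵ₀ ≤ μ) : F μ ≤ Order.succ (2 ^ μ) := by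
  refine csInf_le' fun P _ hP => ?_
  obtain ⟨𝓕, h1, h2, h3⟩ := basic_lemma (P := P) μ hμ (fun A hA => (hP.lt hA).le)
  exact ⟨𝓕, Order.lt_succ_iff.2 h1, h2, h3⟩

theorem F_spec {μ : Cardinal.{u}} (hμ : ℵ₀ ≤ μ) (h : InD μ P) : CoveredByFewer (F μ) P :=
  csInf_mem (F_set_nonempty hμ) P h

theorem F_mono {μ μ' : Cardinal.{u}} (hμ' : ℵ₀ ≤ μ') (h : μ ≤ μ') : F μ ≤ F μ' :=
  csInf_le' fun _ _ hP => F_spec hμ' (hP.mono h)

/-- if `n < F μ` then some poset in `D(μ)` is not covered by fewer than `n` ideals. -/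
theorem exists_of_lt_F {μ n : Cardinal.{u}} (h : n < F μ) :
    ∃ (P : Type u) (_ : PartialOrder P), InD μ P ∧ ¬ CoveredByFewer n P := by
  by_contra hcon
  push Not at hcon
  exact (notMem_of_lt_csInf' h) (fun P _ hP => hcon P _ hP)

/-- a type with the discrete order -/
def Disc (α : Type u) : Type u := α

instance (α : Type u) : PartialOrder (Disc α) where
  le a b := a = b
  le_refl _ := rfl
  le_trans _ _ _ h1 h2 := Eq.trans h1 h2
  le_antisymm _ _ h _ := h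

theorem le_F {μ : Cardinal.{u}} (hμ : ℵ₀ ≤ μ) : μ ≤ F μ := by
  by_contra hcon
  push Not at hcon
  have hD : InD μ (Disc (F μ).out) := by
    intro A _ hA
    have h1 := mk_set_le A
    rw [hA] at h1
    have h2 : #(Disc (F μ).out) = F μ := mk_out _
    rw [h2] at h1
    exact absurd hcon (not_lt.2 h1)
  obtain ⟨𝓕, h1, h2, h3⟩ := F_spec hμ hD
  have h4 : ∀ x : Disc (F μ).out, ∃ I : 𝓕, x ∈ I.1 := by
    intro x
    have : x ∈ ⋃₀ 𝓕 := by rw [h3]; trivial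
    obtain ⟨I, hI, hx⟩ := this
    exact ⟨⟨I, hI⟩, hx⟩
  choose g hg using h4
  have hinj : Function.Injective g := by
    intro x y hxy
    have hx := hg x
    have hy := hg y
    rw [hxy] at hx
    obtain ⟨z, _, hxz, hyz⟩ := (h2 _ (g y).2).2 x hx y hy
    exact (show x = z from hxz).trans (show y = z from hyz).symm
  have h5 := mk_le_of_injective hinj
  have h6 : #(Disc (F μ).out) = F μ := mk_out _
  rw [h6] at h5
  exact absurd h1 (not_lt.2 h5)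

theorem aleph0_le_F {μ : Cardinal.{u}} (hμ : ℵ₀ ≤ μ) : ℵ₀ ≤ F μ := hμ.trans (le_F hμ)

/-- a set not covered by fewer than `F l` ideals contains an antichain of size `l`. -/
theorem exists_antichain_of_not_cov {l : Cardinal.{u}} (hl : ℵ₀ ≤ l) {X : Set P}
    (h : ¬ Cov X (F l)) : ∃ A ⊆ X, IsAntichain (· ≤ ·) A ∧ #A = l := by
  have h1 : ¬ InD l X := fun hD => h (Cov.of_subtype (F_spec hl hD))
  unfold InD at h1
  push Not at h1
  obtain ⟨A, hA, hAl⟩ := h1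
  refine ⟨Subtype.val '' A, ?_, ?_, ?_⟩
  · rintro _ ⟨a, _, rfl⟩
    exact a.2
  · rintro _ ⟨a, ha, rfl⟩ _ ⟨b, hb, rfl⟩ hab hle
    exact hA ha hb (fun h => hab (by rw [h])) hle
  · rw [mk_image_eq Subtype.val_injective, hAl]

/-- The sum lemma. -/
theorem sum_lemma {ι : Type u} {ρ χ : Cardinal.{u}} (hχ : ℵ₀ ≤ χ) (hι : #ι ≤ χ) (hρ : ρ ≤ χ)
    (X : ι → Set P) (h : ∀ i, Cov (X i) (F ρ)) : Cov (⋃ i, X i) (F (Order.succ χ)) := by
  classical
  choose 𝓕 h1 h2 h3 using h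
  have h4 := fun i => exists_of_lt_F (h1 i)
  choose Q hQ hQD hQn using h4
  -- the disjoint sum
  have hlt_iff : ∀ (i j : ι) (a : Q i) (b : Q j), (⟨i, a⟩ : Σ i, Q i) ≤ ⟨j, b⟩ ↔
      ∃ h : i = j, (h ▸ a) ≤ b := by
    intro i j a b
    constructor
    · rintro ⟨_, _, _, h⟩
      exact ⟨rfl, h⟩
    · rintro ⟨rfl, h⟩
      exact Sigma.LE.fiber _ _ _ h
  have hD : InD (Order.succ χ) (Σ i, Q i) := by
    intro A hA hcard
    have hA2 : A = ⋃ i, Sigma.mk i '' (Sigma.mk i ⁻¹' A) := by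
      ext ⟨i, a⟩
      simp only [mem_iUnion, mem_image, mem_preimage]
      constructor
      · intro h
        exact ⟨i, a, h, rfl⟩
      · rintro ⟨j, b, hb, hab⟩
        rw [← hab]; exact hb
    have hAi : ∀ i, #(Sigma.mk i '' (Sigma.mk i ⁻¹' A)) ≤ χ := by
      intro i
      refine mk_image_le.trans (((hQD i).lt ?_).le.trans hρ)
      intro a ha b hb hab hle
      exact hA ha hb (fun h => hab (by simpa using h)) (Sigma.LE.fiber _ _ _ hle)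
    have : #A ≤ χ := by
      rw [hA2]
      refine (mk_iUnion_le_sum_mk).trans ?_
      refine (sum_le_sum _ (fun _ => χ) hAi).trans ?_
      rw [sum_const']
      exact (mul_le_mul' hι le_rfl).trans (mul_eq_self hχ).le
    rw [hcard] at this
    exact absurd (Order.lt_succ χ) (not_lt.2 this)
  obtain ⟨𝓖, g1, g2, g3⟩ := F_spec (hχ.trans (Order.le_succ χ)) hD
  let 𝓖i : ι → Set (Set (Σ i, Q i)) := fun i => {I ∈ 𝓖 | ∃ a : Q i, (⟨i, a⟩ : Σ i, Q i) ∈ I}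
  -- each `Q i` needs at least `#(𝓕 i)` ideals
  have hcard : ∀ i, #(𝓕 i) ≤ #(𝓖i i) := by
    intro i
    by_contra hcon
    push Not at hcon
    apply hQn i
    refine ⟨(fun I : Set (Σ i, Q i) => Sigma.mk i ⁻¹' I) '' 𝓖i i, mk_image_le.trans_lt hcon,
      ?_, ?_⟩
    · rintro _ ⟨I, hI, rfl⟩
      refine ⟨fun a b hab ha => (g2 I hI.1).1 (Sigma.LE.fiber _ _ _ hab) ha, ?_⟩
      intro a ha b hb
      obtain ⟨⟨k, c⟩, hc, hac, hbc⟩ := (g2 I hI.1).2 _ ha _ hb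
      obtain ⟨rfl, hac⟩ := (hlt_iff _ _ _ _).1 hac
      obtain ⟨_, hbc⟩ := (hlt_iff _ _ _ _).1 hbc
      exact ⟨c, hc, hac, hbc⟩
    · refine Set.eq_univ_of_forall fun a => ?_
      have : (⟨i, a⟩ : Σ i, Q i) ∈ ⋃₀ 𝓖 := by rw [g3]; trivial
      obtain ⟨I, hI, ha⟩ := this
      exact ⟨_, ⟨I, ⟨hI, a, ha⟩, rfl⟩, ha⟩
  have hdisj : ∀ i j, ∀ I ∈ 𝓖i i, I ∈ 𝓖i j → i = j := by
    rintro i j I ⟨hI, a, ha⟩ ⟨_, b, hb⟩
    obtain ⟨⟨k, c⟩, hc, hac, hbc⟩ := (g2 I hI).2 _ ha _ hb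
    obtain ⟨rfl, _⟩ := (hlt_iff _ _ _ _).1 hac
    obtain ⟨rfl, _⟩ := (hlt_iff _ _ _ _).1 hbc
    rfl
  have hemb : ∀ i, Nonempty (𝓕 i ↪ 𝓖i i) := fun i => (Cardinal.le_def _ _).1 (hcard i)
  let e : ∀ i, (𝓕 i ↪ 𝓖i i) := fun i => (hemb i).some
  refine ⟨⋃ i, 𝓕 i, ?_, ?_, ?_⟩
  · refine mk_iUnion_le_sum_mk.trans_lt ?_
    refine lt_of_le_of_lt ?_ g1
    rw [← mk_sigma]
    refine mk_le_of_injective (f := fun x : Σ i, 𝓕 i => (⟨(e x.1 x.2).1, (e x.1 x.2).2.1⟩ : 𝓖)) ?_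
    rintro ⟨i, x⟩ ⟨j, y⟩ hxy
    have h5 : (e i x).1 = (e j y).1 := by simpa using hxy
    have hij : i = j := by
      refine hdisj i j _ (e i x).2 ?_
      rw [h5]; exact (e j y).2
    subst hij
    have h6 : e i x = e i y := Subtype.ext h5
    rw [(e i).injective h6]
  · intro I hI
    obtain ⟨i, hi⟩ := mem_iUnion.1 hI
    exact h2 i I hi
  · intro x hx
    obtain ⟨i, hi⟩ := mem_iUnion.1 hx
    obtain ⟨I, hI, hxI⟩ := h3 i hi
    exact ⟨I, mem_iUnion.2 ⟨i, hI⟩, hxI⟩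

end Pool.Agent.H12.Ideals
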