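import Pool.Agent.H12.Ideals.FFacts

set_option autoImplicit false

universe u

open Cardinal Set

namespace Pool.Agent.H12.Ideals

variable {P : Type u} [PartialOrder P] {μ κ : Cardinal.{u}} {ρ : κ.ord.ToType → Cardinal.{u}}

/-- a monotone sequence of cardinals cofinal in the singular cardinal `μ`. -/
structure Scale (μ κ : Cardinal.{u}) (ρ : κ.ord.ToType → Cardinal.{u}) : Prop where
  inf : ℵ₀ ≤ κ
  klt : κ < μ
  le : ∀ β, κ ≤ ρ β
  lt : ∀ β, ρ β < μ
  mono : Monotone ρ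
  cofinal : ∀ ν < μ, ∃ β, ν ≤ ρ β
  lim : ∀ ν < μ, Order.succ ν < μ
  cof_eq : μ.ord.cof = κ

theorem exists_scale (hμ : μ.IsSingular) : ∃ ρ, Scale μ μ.ord.cof ρ := by
  obtain ⟨f, hf⟩ := Ordinal.exists_isFundamentalSeq (o := μ.ord) rfl
  have hlim : Order.IsSuccLimit μ := hμ.isSuccLimit
  have hκ : μ.ord.cof < μ := hμ.cof_ord_lt
  refine ⟨fun β => max μ.ord.cof (f (Ordinal.ToType.mk.symm β)).1.card, ?_, hκ, ?_, ?_, ?_, ?_, ?_,
    rfl⟩
  · have := Cardinal.isRegular_cof (o := μ.ord) (isSuccLimit_ord hμ.aleph0_le)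
    exact this.aleph0_le
  · intro β
    exact le_max_left _ _
  · intro β
    exact max_lt hκ (lt_ord.1 (f (Ordinal.ToType.mk.symm β)).2)
  · intro α β hαβ
    refine max_le_max le_rfl (Ordinal.card_le_card ?_)
    exact hf.strictMono.monotone (Ordinal.ToType.mk.symm.monotone hαβ)
  · intro ν hν
    obtain ⟨_, ⟨b, rfl⟩, hb⟩ := hf.isCofinal_range ⟨ν.ord, ord_lt_ord.2 hν⟩
    refine ⟨Ordinal.ToType.mk b, le_max_of_le_right ?_⟩
    have h1 : ν.ord ≤ (f b).1 := hb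
    have h2 := Ordinal.card_le_card h1
    rw [card_ord] at h2
    simpa using h2
  · intro ν hν
    exact hlim.succ_lt hν

namespace Scale

theorem aleph0_lt (hs : Scale μ κ ρ) : ℵ₀ < μ := hs.inf.trans_lt hs.klt

theorem aleph0_le_rho (hs : Scale μ κ ρ) (β : κ.ord.ToType) : ℵ₀ ≤ ρ β := hs.inf.trans (hs.le β)

end Scale

/-- `X` is small: covered by fewer than `F ρ` ideals for some `ρ < μ`. -/
def Sm (μ : Cardinal.{u}) (X : Set P) : Prop := ∃ ρ, ℵ₀ ≤ ρ ∧ ρ < μ ∧ Cov X (F ρ)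

theorem Sm.mono {X Y : Set P} (h : Sm μ Y) (hXY : X ⊆ Y) : Sm μ X := by
  obtain ⟨ρ, h1, h2, h3⟩ := h
  exact ⟨ρ, h1, h2, h3.mono hXY le_rfl⟩

theorem Sm.of_isIdl (hμ : ℵ₀ < μ) {D : Set P} (h : IsIdl D) : Sm μ D := by
  refine ⟨ℵ₀, le_rfl, hμ, {D}, ?_, ?_, ?_⟩
  · rw [mk_singleton]
    exact one_lt_aleph0.trans_le (aleph0_le_F le_rfl)
  · rintro I rfl
    exact h
  · simp

/-- small unions of uniformly small sets are small -/
theorem Sm.iUnion_unif (hs : Scale μ κ ρ) {ι : Type u} (hι : #ι < μ) {ρ₀ : Cardinal.{u}}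
    (hρ : ρ₀ < μ) (X : ι → Set P) (h : ∀ i, Cov (X i) (F ρ₀)) : Sm μ (⋃ i, X i) := by
  refine ⟨Order.succ (max ℵ₀ (max #ι ρ₀)), (le_max_left _ _).trans (Order.le_succ _),
    hs.lim _ (max_lt hs.aleph0_lt (max_lt hι hρ)), ?_⟩
  exact sum_lemma (le_max_left _ _) ((le_max_left _ _).trans (le_max_right _ _))
    ((le_max_right _ _).trans (le_max_right _ _)) X h

/-- the family of small sets is closed under unions of fewer than `cf μ` sets -/
theorem Sm.iUnion (hs : Scale μ κ ρ) {ι : Type u} (hι : #ι < κ)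
    (X : ι → Set P) (h : ∀ i, Sm μ (X i)) : Sm μ (⋃ i, X i) := by
  choose r h1 h2 h3 using h
  have h4 : ⨆ i, r i < μ := by
    refine iSup_lt_of_lt_cof_ord ?_ h2
    rw [hs.cof_eq]; exact hι
  have hb : BddAbove (range r) := bddAbove_of_small
  have h5 : max ℵ₀ (⨆ i, r i) < μ := max_lt hs.aleph0_lt h4
  refine Sm.iUnion_unif hs (hι.trans hs.klt) h5 X ?_
  intro i
  exact (h3 i).mono subset_rfl (F_mono (le_max_left _ _) ((le_ciSup hb i).trans (le_max_right _ _)))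

theorem Sm.union (hs : Scale μ κ ρ) {X Y : Set P} (hX : Sm μ X) (hY : Sm μ Y) :
    Sm μ (X ∪ Y) := by
  have : X ∪ Y = ⋃ i : ULift.{u} Bool, (if i.down then X else Y) := by
    ext x
    simp only [mem_union, mem_iUnion]
    constructor
    · rintro (h | h)
      · exact ⟨⟨true⟩, by simpa using h⟩
      · exact ⟨⟨false⟩, by simpa using h⟩
    · rintro ⟨⟨b⟩, h⟩
      cases b
      · exact Or.inr (by simpa using h)
      · exact Or.inl (by simpa using h)
  rw [this]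
  refine Sm.iUnion hs ?_ _ ?_
  · exact (lt_aleph0_of_finite _).trans_le hs.inf
  · rintro ⟨b⟩
    cases b
    · simpa using hY
    · simpa using hX

theorem Sm.empty (hμ : ℵ₀ < μ) : Sm μ (∅ : Set P) :=
  (Sm.of_isIdl hμ (D := (∅ : Set P)) ⟨fun _ _ _ h => h.elim, fun _ h => h.elim⟩)

/-- the main combinatorial tool -/
theorem p1 (hs : Scale μ κ ρ) (hμ : InD μ P) (V : κ.ord.ToType → Set P)
    (h1 : ∀ α β, α < β → ∀ x ∈ V α, ∀ y ∈ V β, ¬ x ≤ y)
    (h2 : ∀ β, ¬ Cov (V β) (F (Order.succ (ρ β)))) : False := by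
  obtain ⟨A, hA⟩ := rec_choice (α := Set P) (fun a b : κ.ord.ToType => a < b) wellFounded_lt
    (fun β f A => A ⊆ V β \ dn (⋃ k, f k) ∧ IsAntichain (· ≤ ·) A ∧ #A = ρ β) (by
      intro β f hf
      have hU : #(⋃ k : {j // j < β}, f k.1 : Set P) ≤ ρ β := by
        refine mk_iUnion_le_sum_mk.trans ?_
        refine (sum_le_sum _ (fun _ => ρ β) ?_).trans ?_
        · rintro ⟨j, hj⟩
          rw [(hf j hj).2.2]
          exact hs.mono hj.le
        · rw [sum_const']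
          have h3 : #{j // j < β} ≤ ρ β := by
            have : #(Iio β) < κ := by simpa using mk_Iio_lt β
            exact this.le.trans (hs.le β)
          exact (mul_le_mul' h3 le_rfl).trans (mul_eq_self (hs.aleph0_le_rho β)).le
      have hsucc : ℵ₀ ≤ Order.succ (ρ β) := (hs.aleph0_le_rho β).trans (Order.le_succ _)
      have h4 : ¬ Cov (V β \ dn (⋃ k : {j // j < β}, f k.1)) (F (Order.succ (ρ β))) := by
        intro hcon
        apply h2 β
        have h5 : Cov (dn (⋃ k : {j // j < β}, f k.1)) (F (Order.succ (ρ β))) :=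
          Cov.dn_small (hU.trans_lt ((Order.lt_succ _).trans_le (le_F hsucc)))
        refine (Cov.union (aleph0_le_F hsucc) hcon h5).mono ?_ le_rfl
        intro x hx
        by_cases hx2 : x ∈ dn (⋃ k : {j // j < β}, f k.1)
        · exact Or.inr hx2
        · exact Or.inl ⟨hx, hx2⟩
      obtain ⟨A, hAV, hA, hAc⟩ := exists_antichain_of_not_cov hsucc h4
      obtain ⟨B, hBA, hB, hBc⟩ := IsAntichain.exists_subset_card hA
        (l := ρ β) (by rw [hAc]; exact Order.le_succ _)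
      exact ⟨B, hBA.trans hAV, hB, hBc⟩)
  have hanti : IsAntichain (· ≤ ·) (⋃ β, A β) := by
    intro x hx y hy hxy hle
    obtain ⟨α, hα⟩ := mem_iUnion.1 hx
    obtain ⟨β, hβ⟩ := mem_iUnion.1 hy
    rcases lt_trichotomy α β with hlt | heq | hgt
    · exact h1 α β hlt x ((hA α).1 hα).1 y ((hA β).1 hβ).1 hle
    · subst heq
      exact (hA α).2.1 hα hβ hxy hle
    · exact ((hA α).1 hα).2 ⟨y, mem_iUnion.2 ⟨⟨β, hgt⟩, hβ⟩, hle⟩
  have hlt := hμ.lt hanti
  obtain ⟨β, hβ⟩ := hs.cofinal _ (hs.lim _ hlt)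
  have h6 : ρ β ≤ #(⋃ β, A β : Set P) := by
    rw [← (hA β).2.2]
    exact mk_le_mk_of_subset (subset_iUnion A β)
  exact absurd (Order.lt_succ (#(⋃ β, A β : Set P))) (not_lt.2 (hβ.trans h6))

/-- if all the sets `Y ∩ Ici w`, `w ∈ Y`, are uniformly small then so is `Y`. -/
theorem cLemma (hs : Scale μ κ ρ) (hμ : InD μ P) (Y : Set P) {ρ₀ : Cardinal.{u}} (hρ : ρ₀ < μ)
    (h : ∀ w ∈ Y, Cov (Y ∩ Ici w) (F ρ₀)) : Sm μ Y := by
  obtain ⟨W, hW⟩ := zorn_subset {W : Set P | W ⊆ Y ∧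
      ∀ a ∈ W, ∀ b ∈ W, a ≠ b → ¬ ∃ z ∈ Y, a ≤ z ∧ b ≤ z} (by
    intro c hc hchain
    refine ⟨⋃₀ c, ⟨sUnion_subset fun s hs => (hc hs).1, ?_⟩, fun s hs => subset_sUnion_of_mem hs⟩
    rintro x ⟨s, hs, hxs⟩ y ⟨t, ht, hyt⟩ hxy
    rcases hchain.total hs ht with hst | hst
    · exact (hc ht).2 x (hst hxs) y hyt hxy
    · exact (hc hs).2 x hxs y (hst hyt) hxy)
  have hWY : W ⊆ Y := hW.prop.1
  have hanti : IsAntichain (· ≤ ·) W := by
    intro a ha b hb hab hle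
    exact hW.prop.2 a ha b hb hab ⟨b, hWY hb, hle, le_rfl⟩
  have hWμ := hμ.lt hanti
  have h1 : Sm μ (⋃ w : W, dn (Y ∩ Ici w.1)) :=
    Sm.iUnion_unif hs hWμ hρ _ (fun w => (h w.1 (hWY w.2)).dn)
  refine h1.mono ?_
  intro y hy
  by_contra hcon
  have hcon2 : ∀ w ∈ W, ¬ ∃ z ∈ Y, w ≤ z ∧ y ≤ z := by
    rintro w hw ⟨z, hz, hwz, hyz⟩
    exact hcon (mem_iUnion.2 ⟨⟨w, hw⟩, z, ⟨hz, hwz⟩, hyz⟩)
  have h2 : insert y W ⊆ W := by
    refine hW.le_of_ge ⟨insert_subset hy hWY, ?_⟩ (subset_insert y W)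
    rintro a (rfl | ha) b (rfl | hb) hab
    · exact (hab rfl).elim
    · rintro ⟨z, hz, h3, h4⟩
      exact hcon2 b hb ⟨z, hz, h4, h3⟩
    · exact hcon2 a ha
    · exact hW.prop.2 a ha b hb hab
  have hyW : y ∈ W := h2 (mem_insert y W)
  exact hcon2 y hyW ⟨y, hy, le_rfl, le_rfl⟩

/-- every set is, up to a small set, generated by fewer than `cf μ` of its elements -/
theorem wLemma (hs : Scale μ κ ρ) (hμ : InD μ P) (X : Set P) :
    ∃ W ⊆ X, #W < κ ∧ Sm μ (X \ up W) := by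
  rcases isEmpty_or_nonempty P with hP | hP
  · refine ⟨∅, empty_subset _, ?_, (Sm.empty hs.aleph0_lt).mono ?_⟩
    · rw [mk_eq_zero]
      exact aleph0_pos.trans_le hs.inf
    · intro x
      exact (hP.false x).elim
  by_contra hcon
  push Not at hcon
  obtain ⟨w, hw⟩ := rec_choice (α := P) (fun a b : κ.ord.ToType => a < b) wellFounded_lt
    (fun β f w => w ∈ X \ up (range f) ∧
      ¬ Cov ((X \ up (range f)) ∩ Ici w) (F (Order.succ (ρ β)))) (by
      intro β f hf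
      have hsub : range (fun k : {j // j < β} => f k.1) ⊆ X := by
        rintro _ ⟨⟨j, hj⟩, rfl⟩
        exact (hf j hj).1.1
      have hcard : #(range (fun k : {j // j < β} => f k.1)) < κ := by
        refine mk_range_le.trans_lt ?_
        have : #(Iio β) < κ := by simpa using mk_Iio_lt β
        exact this
      have h1 := hcon _ hsub hcard
      by_contra hcon2
      push Not at hcon2
      exact h1 (cLemma hs hμ _ (hs.lim _ (hs.lt β)) hcon2))
  refine p1 hs hμ (fun β => (X \ up (range (fun k : {j // j < β} => w k.1))) ∩ Ici (w β)) ?_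
    (fun β => (hw β).2)
  intro α β hαβ x hx y hy hxy
  exact hy.1.2 ⟨w α, ⟨⟨α, hαβ⟩, rfl⟩, le_trans hx.2 hxy⟩

end Pool.Agent.H12.Ideals
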