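import Pool.Agent.H12.Ideals.P1

set_option autoImplicit false

universe u

open Cardinal Set

namespace Pool.Agent.H12.Ideals

variable {P : Type u} [PartialOrder P] {μ κ : Cardinal.{u}} {ρ : κ.ord.ToType → Cardinal.{u}}

theorem not_cov_of_not_sm {X : Set P} (h : ¬ Sm μ X) {σ : Cardinal.{u}} (hσ : ℵ₀ ≤ σ)
    (hσμ : σ < μ) : ¬ Cov X (F σ) := fun hc => h ⟨σ, hσ, hσμ, hc⟩

omit [PartialOrder P] in
/-- a set of cardinality `μ` is a union of `κ` sets of smaller cardinality -/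
theorem exists_decomp (hs : Scale μ κ ρ) (hP : #P ≤ μ) :
    ∃ S : κ.ord.ToType → Set P, (∀ γ, #(S γ) < μ) ∧ ⋃ γ, S γ = Set.univ := by
  have h1 : #P ≤ #μ.ord.ToType := by simpa using hP
  obtain ⟨e⟩ := h1
  refine ⟨fun γ => {x | #(Iio (e x)) ≤ ρ γ}, fun γ => ?_, ?_⟩
  · -- the set of points of `μ.ord.ToType` with at most `ρ γ` predecessors is small
    have h2 : #{x : P | #(Iio (e x)) ≤ ρ γ} ≤ #{a : μ.ord.ToType | #(Iio a) ≤ ρ γ} :=
      mk_le_of_injective (f := fun x => ⟨e x.1, x.2⟩) (fun x y hxy => by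
        have : e x.1 = e y.1 := by simpa using hxy
        exact Subtype.ext (e.injective this))
    refine h2.trans_lt ?_
    obtain ⟨a, ha⟩ := exists_Iio_card μ _ (hs.lim _ (hs.lt γ))
    refine lt_of_le_of_lt (mk_le_mk_of_subset (t := Iio a) ?_) (by simpa using mk_Iio_lt a)
    intro b hb
    by_contra hcon
    have h3 : a ≤ b := not_lt.1 hcon
    have h4 : #(Iio a) ≤ #(Iio b) := mk_le_mk_of_subset (Iio_subset_Iio h3)
    rw [ha] at h4
    exact absurd (Order.lt_succ (ρ γ)) (not_lt.2 (h4.trans hb))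
  · refine Set.eq_univ_of_forall fun x => ?_
    obtain ⟨γ, hγ⟩ := hs.cofinal (#(Iio (e x))) (by simpa using mk_Iio_lt (e x))
    exact mem_iUnion.2 ⟨γ, hγ⟩

/-- posets of cardinality at most `μ` -/
theorem small_of_card_le (hs : Scale μ κ ρ) (hst : ∀ l < μ, 2 ^ l < μ) (hμ : InD μ P)
    (hP : #P ≤ μ) : Sm μ (Set.univ : Set P) := by
  classical
  by_contra hcon
  have hne : Nonempty P := by
    by_contra hem
    rw [not_nonempty_iff] at hem
    refine hcon ((Sm.empty hs.aleph0_lt).mono ?_)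
    intro x
    exact (hem.false x).elim
  obtain ⟨S, hS1, hS2⟩ := exists_decomp hs hP
  -- step 1
  have step1 : ∀ Y : Set P, #Y < μ → ∀ σ, ℵ₀ ≤ σ → σ < μ →
      ∃ z, z ∉ dn Y ∧ ¬ Cov (Ici z) (F σ) := by
    intro Y hY σ hσ hσμ
    by_contra hcon2
    push Not at hcon2
    apply hcon
    have h1 : Sm μ (dn Y)ᶜ := by
      refine cLemma hs hμ _ hσμ fun w hw => ?_
      exact (hcon2 w hw).mono inter_subset_right le_rfl
    have h2 : Sm μ (dn Y) := by
      refine ⟨max ℵ₀ (Order.succ #Y), le_max_left _ _, max_lt hs.aleph0_lt (hs.lim _ hY), ?_⟩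
      refine Cov.dn_small ?_
      exact (Order.lt_succ _).trans_le ((le_max_right _ _).trans (le_F (le_max_left _ _)))
    refine (Sm.union hs h1 h2).mono ?_
    intro x _
    by_cases hx : x ∈ dn Y
    · exact Or.inr hx
    · exact Or.inl hx
  -- step 2 and 3
  obtain ⟨X, hX⟩ := rec_choice (α := Set P) (fun a b : κ.ord.ToType => a < b) wellFounded_lt
    (fun β f X => (∀ x ∈ X, x ∉ dn (⋃ k, f k)) ∧ #X < μ ∧ ¬ Cov X (F (Order.succ (ρ β))) ∧
      ∀ y ∈ ⋃ k, f k, ∀ x ∈ X, ∀ x' ∈ X, y ≤ x → y ≤ x') (by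
    intro β f hf
    set Y : Set P := ⋃ k : {j // j < β}, f k.1 with hYdef
    have hY : #Y < μ := by
      refine mk_iUnion_le_sum_mk.trans_lt ?_
      have hlt : #{j // j < β} < κ := by
        have : #(Iio β) < κ := by simpa using mk_Iio_lt β
        exact this
      have h1 : ⨆ k : {j // j < β}, #(f k.1) < μ := by
        refine iSup_lt_of_lt_cof_ord ?_ (fun k => (hf k.1 k.2).2.1)
        rw [hs.cof_eq]; exact hlt
      refine (sum_le_mk_mul_iSup _).trans_lt ?_
      exact mul_lt_of_lt hs.aleph0_lt.le (hlt.trans hs.klt) h1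
    have hρβ := hs.aleph0_le_rho β
    set χ : Cardinal.{u} := max (2 ^ #Y) (Order.succ (ρ β)) with hχ
    have hχ0 : ℵ₀ ≤ χ := (hρβ.trans (Order.le_succ _)).trans (le_max_right _ _)
    have hχμ : χ < μ := max_lt (hst _ hY) (hs.lim _ (hs.lt β))
    obtain ⟨z, hz1, hz2⟩ := step1 Y hY (Order.succ (Order.succ χ))
      (hχ0.trans ((Order.le_succ _).trans (Order.le_succ _))) (hs.lim _ (hs.lim _ hχμ))
    -- choose a piece of `Ici z`
    obtain ⟨γ, hγ⟩ : ∃ γ, ¬ Cov (Ici z ∩ S γ) (F (Order.succ χ)) := by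
      by_contra hcon2
      push Not at hcon2
      apply hz2
      have h0 : κ ≤ Order.succ χ := ((hs.le β).trans ((Order.le_succ _).trans
        (le_max_right (2 ^ #Y) _))).trans (Order.le_succ χ)
      have h1 := sum_lemma (χ := Order.succ χ) (hχ0.trans (Order.le_succ _))
        (by simpa using h0) le_rfl _ hcon2
      refine h1.mono ?_ le_rfl
      rw [← inter_iUnion, hS2, inter_univ]
    -- uniformize
    obtain ⟨t, ht⟩ : ∃ t : (𝒫 Y : Set (Set P)),
        ¬ Cov {x ∈ Ici z ∩ S γ | {y ∈ Y | y ≤ x} = t.1} (F (Order.succ (ρ β))) := by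
      by_contra hcon2
      push Not at hcon2
      apply hγ
      have h1 := sum_lemma (ι := (𝒫 Y : Set (Set P))) (χ := χ) hχ0
        (by rw [mk_powerset]; exact le_max_left _ _) (le_max_right _ _) _ hcon2
      refine h1.mono ?_ le_rfl
      intro x hx
      exact mem_iUnion.2 ⟨⟨{y ∈ Y | y ≤ x}, sep_subset _ _⟩, hx, rfl⟩
    refine ⟨{x ∈ Ici z ∩ S γ | {y ∈ Y | y ≤ x} = t.1}, ?_, ?_, ht, ?_⟩
    · rintro x ⟨⟨hx, _⟩, _⟩ ⟨y, hy, hxy⟩
      exact hz1 ⟨y, hy, le_trans hx hxy⟩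
    · exact (mk_le_mk_of_subset (fun x hx => hx.1.2)).trans_lt (hS1 γ)
    · intro y hy x hx x' hx' hyx
      have h1 : y ∈ {y ∈ Y | y ≤ x} := ⟨hy, hyx⟩
      rw [hx.2, ← hx'.2] at h1
      exact h1.2)
  -- pick points of `X β`
  have hXne : ∀ β, (X β).Nonempty := by
    intro β
    by_contra hemp
    rw [Set.not_nonempty_iff_eq_empty] at hemp
    apply (hX β).2.2.1
    rw [hemp]
    refine ⟨∅, ?_, ?_, ?_⟩
    · rw [mk_eq_zero]
      exact aleph0_pos.trans_le (aleph0_le_F ((hs.aleph0_le_rho β).trans (Order.le_succ _)))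
    · intro I hI
      exact hI.elim
    · exact empty_subset _
  choose x hx using hXne
  have hdn : #(range x) ≤ κ := mk_range_le.trans (by simp)
  have hA : ∀ α, ∃ A ⊆ X α \ dn (x '' Ioi α), IsAntichain (· ≤ ·) A ∧ #A = ρ α := by
    intro α
    have hsucc : ℵ₀ ≤ Order.succ (ρ α) := (hs.aleph0_le_rho α).trans (Order.le_succ _)
    have h4 : ¬ Cov (X α \ dn (x '' Ioi α)) (F (Order.succ (ρ α))) := by
      intro hc
      apply (hX α).2.2.1
      have h5 : Cov (dn (x '' Ioi α)) (F (Order.succ (ρ α))) := by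
        refine Cov.dn_small ?_
        refine lt_of_le_of_lt ((mk_le_mk_of_subset (image_subset_range _ _)).trans
          (hdn.trans (hs.le α))) ?_
        exact (Order.lt_succ _).trans_le (le_F hsucc)
      refine (Cov.union (aleph0_le_F hsucc) hc h5).mono ?_ le_rfl
      intro y hy
      by_cases hy2 : y ∈ dn (x '' Ioi α)
      · exact Or.inr hy2
      · exact Or.inl ⟨hy, hy2⟩
    obtain ⟨A, hAV, hA, hAc⟩ := exists_antichain_of_not_cov hsucc h4
    obtain ⟨B, hBA, hB, hBc⟩ := IsAntichain.exists_subset_card hA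
      (l := ρ α) (by rw [hAc]; exact Order.le_succ _)
    exact ⟨B, hBA.trans hAV, hB, hBc⟩
  choose A hA1 hA2 hA3 using hA
  have hanti : IsAntichain (· ≤ ·) (⋃ β, A β) := by
    -- for `α < β` the elements of `A α`, `A β` are incomparable
    have key : ∀ α β, α < β → ∀ a ∈ A α, ∀ b ∈ A β, ¬ a ≤ b ∧ ¬ b ≤ a := by
      intro α β hαβ a ha b hb
      have haX := (hA1 α ha).1
      have hbX := (hA1 β hb).1
      have haY : a ∈ ⋃ k : {j // j < β}, X k.1 := mem_iUnion.2 ⟨⟨α, hαβ⟩, haX⟩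
      constructor
      · intro hab
        have h1 := (hX β).2.2.2 a haY b hbX (x β) (hx β) hab
        exact (hA1 α ha).2 ⟨x β, ⟨β, hαβ, rfl⟩, h1⟩
      · intro hba
        exact (hX β).1 b hbX ⟨a, haY, hba⟩
    intro a ha b hb hab hle
    obtain ⟨α, hα⟩ := mem_iUnion.1 ha
    obtain ⟨β, hβ⟩ := mem_iUnion.1 hb
    rcases lt_trichotomy α β with hlt | heq | hgt
    · exact (key α β hlt a hα b hβ).1 hle
    · subst heq
      exact hA2 α hα hβ hab hle
    · exact (key β α hgt b hβ a hα).2 hle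
  have hlt := hμ.lt hanti
  obtain ⟨β, hβ⟩ := hs.cofinal _ (hs.lim _ hlt)
  have h6 : ρ β ≤ #(⋃ β, A β : Set P) := by
    rw [← hA3 β]
    exact mk_le_mk_of_subset (subset_iUnion A β)
  exact absurd (Order.lt_succ (#(⋃ β, A β : Set P))) (not_lt.2 (hβ.trans h6))

end Pool.Agent.H12.Ideals
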