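import Pool.Agent.H12.Ideals.T1

set_option autoImplicit false

universe u

open Cardinal Set

namespace Pool.Agent.H12.Ideals

theorem t1_main (μ : Cardinal.{u}) (hμ : μ.IsSingular) (hst : μ.IsStrongLimit) (P : Type u)
    [PartialOrder P] (hP : InD μ P) (hcof : ∃ Q : Set P, IsCofinal Q ∧ #Q ≤ μ) :
    CoveredByFewer μ P := by
  obtain ⟨Q, hQ, hQμ⟩ := hcof
  obtain ⟨ρ, hs⟩ := exists_scale hμ
  obtain ⟨σ, h1, h2, h3⟩ := small_of_card_le (P := Q) hs (fun l hl => hst.isStrongPrelimit hl)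
    (hP.subtype Q) hQμ
  rw [← coveredByFewer_iff] at h3
  have h4 : Cov Q (F σ) := Cov.of_subtype h3
  have h5 := h4.dn
  rw [coveredByFewer_iff]
  refine h5.mono ?_ ?_
  · intro x _
    obtain ⟨q, hq, hxq⟩ := hQ x
    exact ⟨q, hq, hxq⟩
  · exact (F_le_succ h1).trans (hs.lim _ (hst.isStrongPrelimit h2)).le

end Pool.Agent.H12.Ideals
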