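import Pool.Agent.H12.Ideals.Tree

set_option autoImplicit false

universe u

open Cardinal Set

namespace Pool.Agent.H12.Ideals

variable {P : Type u} [PartialOrder P] {μ κ : Cardinal.{u}} {ρ : κ.ord.ToType → Cardinal.{u}}

/-- If a set `D` has the property that each of its small traces is taken by a non-small set, we get
a contradiction. -/
theorem no_generic (hs : Scale μ κ ρ) (hμ : InD μ P) (D : Set P)
    (hD : ∀ B : Set P, #B < κ → ¬ Sm μ (Agree D B)) : False := by
  have hpair : ∀ p q : P, #({p, q} : Set P) < κ := fun p q =>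
    (Set.Finite.lt_aleph0 (by simp)).trans_le hs.inf
  -- `D` is a lower set
  have hlow : IsLowerSet D := by
    intro p q hqp hp
    by_contra hq
    apply hD {p, q} (hpair p q)
    have : Agree D {p, q} = ∅ := by
      refine eq_empty_of_forall_notMem fun x hx => ?_
      have h1 : p ≤ x := (hx p (by simp)).2 hp
      exact hq ((hx q (by simp)).1 (hqp.trans h1))
    rw [this]
    exact Sm.empty hs.aleph0_lt
  -- `D` is directed
  have hdir : DirectedOn (· ≤ ·) D := by
    intro p hp q hq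
    by_contra hcon
    push Not at hcon
    obtain ⟨W, hW, hWκ, hWs⟩ := wLemma hs hμ (Ici p ∩ Ici q)
    have hWD : ∀ w ∈ W, w ∉ D := fun w hw hwD => hcon w hwD (hW hw).1 (hW hw).2
    apply hD ({p, q} ∪ W) ((mk_union_le _ _).trans_lt (add_lt_of_lt hs.inf (hpair p q) hWκ))
    refine hWs.mono ?_
    intro x hx
    refine ⟨⟨(hx p (by simp)).2 hp, (hx q (by simp)).2 hq⟩, ?_⟩
    rintro ⟨w, hw, hwx⟩
    exact hWD w hw ((hx w (Or.inr hw)).1 hwx)
  obtain ⟨W, hW, hWκ, hWs⟩ := wLemma hs hμ Dᶜ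
  apply hD W hWκ
  refine (Sm.union hs (Sm.of_isIdl hs.aleph0_lt ⟨hlow, hdir⟩) hWs).mono ?_
  intro x hx
  by_cases hxD : x ∈ D
  · exact Or.inl hxD
  · refine Or.inr ⟨hxD, ?_⟩
    rintro ⟨w, hw, hwx⟩
    exact hW hw ((hx w hw).1 hwx)

/-- Main theorem: if `κ = cf μ` is regular, strong limit and has the tree property, then every
poset in `D(μ)` is small. -/
theorem small_of_treeProperty (hs : Scale μ κ ρ) (hμ : InD μ P)
    (hpow : ∀ l < κ, 2 ^ l < κ) (htree : TreeProperty κ) (hreg : κ.ord.cof = κ) :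
    Sm μ (Set.univ : Set P) := by
  classical
  by_contra hP
  rcases isEmpty_or_nonempty P with hPe | hPne
  · refine hP ((Sm.empty hs.aleph0_lt).mono ?_)
    intro x
    exact (hPe.false x).elim
  -- a well-ordering of `P`
  obtain ⟨r, hr⟩ : ∃ r : P → P → Prop, IsWellOrder P r := ⟨WellOrderingRel, inferInstance⟩
  -- the sets `D Z`
  have hDex : ∀ Z : Set P, ∃ D : Set P, ∀ p, p ∈ D ↔ (p ∉ Z ∧
      ∀ B : Set P, (∀ q ∈ B, r q p) → #B < κ → ¬ Sm μ (Agree D B ∩ Ici p)) := by
    intro Z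
    obtain ⟨f, hf⟩ := rec_choice (α := Prop) r hr.wf
      (fun p f a => (a ↔ (p ∉ Z ∧ ∀ B : Set P, (∀ q ∈ B, r q p) → #B < κ →
        ¬ Sm μ (Agree {q | ∃ h : r q p, f ⟨q, h⟩} B ∩ Ici p)))) (fun p f _ => ⟨_, Iff.rfl⟩)
    refine ⟨{p | f p}, fun p => ?_⟩
    have h1 := hf p
    constructor
    · intro h
      obtain ⟨h2, h3⟩ := h1.1 h
      refine ⟨h2, fun B hB hBκ => ?_⟩
      have h4 := h3 B hB hBκ
      have h5 : Agree {q | f q} B = Agree {q | ∃ _ : r q p, f q} B :=
        agree_congr fun b hb => ⟨fun h => ⟨hB b hb, h⟩, fun ⟨_, h⟩ => h⟩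
      rw [h5]
      exact h4
    · rintro ⟨h2, h3⟩
      refine h1.2 ⟨h2, fun B hB hBκ => ?_⟩
      have h4 := h3 B hB hBκ
      have h5 : Agree {q | f q} B = Agree {q | ∃ _ : r q p, f q} B :=
        agree_congr fun b hb => ⟨fun h => ⟨hB b hb, h⟩, fun ⟨_, h⟩ => h⟩
      rw [h5] at h4
      exact h4
  choose D hD using hDex
  -- witnesses that `D Z` is not generic
  have hBex : ∀ Z : Set P, ∃ B : Set P, #B < κ ∧ Sm μ (Agree (D Z) B) := by
    intro Z
    by_contra hcon
    push Not at hcon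
    exact no_generic hs hμ (D Z) hcon
  choose B1 hB1κ hB1 using hBex
  -- witnesses that a point is not in `D Z`
  have hBex2 : ∀ (Z : Set P) (p : P), ∃ B : Set P, #B < κ ∧ (p ∉ Z → p ∉ D Z →
      (∀ q ∈ B, r q p) ∧ Sm μ (Agree (D Z) B ∩ Ici p)) := by
    intro Z p
    by_cases h : p ∉ Z ∧ p ∉ D Z
    · have h1 := h.2
      rw [hD Z p] at h1
      push Not at h1
      obtain ⟨B, h2, h3, h4⟩ := h1 h.1
      exact ⟨B, h3, fun _ _ => ⟨h2, h4⟩⟩
    · refine ⟨∅, ?_, fun h1 h2 => (h ⟨h1, h2⟩).elim⟩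
      rw [mk_eq_zero]
      exact aleph0_pos.trans_le hs.inf
  choose B2 hB2κ hB2 using hBex2
  -- closing off
  obtain ⟨M, hM, hMcl⟩ := exists_closed (P := P) κ κ le_rfl hs.inf (small_of_lt hs.inf hpow hreg)
    (fun A => B1 A ∪ ⋃ p : A, B2 (A \ {p.1}) p.1) (by
      intro A hA
      refine (mk_union_le _ _).trans ?_
      refine add_le_of_le hs.inf (hB1κ A).le ?_
      refine mk_iUnion_le_sum_mk.trans ?_
      refine (sum_le_sum _ (fun _ => κ) (fun p => (hB2κ _ _).le)).trans ?_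
      rw [sum_const']
      exact (mul_le_mul' hA.le le_rfl).trans (mul_eq_self hs.inf).le)
  have hcl1 : ∀ Z ⊆ M, #Z < κ → B1 Z ⊆ M := fun Z hZ hZκ =>
    subset_union_left.trans (hMcl Z hZ hZκ)
  have hcl2 : ∀ Z ⊆ M, #Z < κ → ∀ p ∈ M, p ∉ Z → B2 Z p ⊆ M := by
    intro Z hZ hZκ p hp hpZ
    have h1 := hMcl (insert p Z) (insert_subset hp hZ) ((mk_insert_le).trans_lt
      (add_lt_of_lt hs.inf hZκ (one_lt_aleph0.trans_le hs.inf)))
    have h2 : B2 Z p ⊆ ⋃ q : (insert p Z : Set P), B2 ((insert p Z) \ {q.1}) q.1 := by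
      have h3 := subset_iUnion (fun q : (insert p Z : Set P) => B2 ((insert p Z) \ {q.1}) q.1)
        ⟨p, mem_insert p Z⟩
      have h4 : (insert p Z : Set P) \ {p} = Z := by
        ext x
        simp only [mem_sdiff, mem_insert_iff, mem_singleton_iff]
        constructor
        · rintro ⟨h5 | h5, h6⟩
          · exact (h6 h5).elim
          · exact h5
        · intro h5
          exact ⟨Or.inr h5, fun h6 => hpZ (h6 ▸ h5)⟩
      simp only [h4] at h3
      exact h3
    exact (h2.trans subset_union_right).trans h1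
  obtain ⟨u, huM, hu⟩ := exists_trace hs hpow htree hreg hP M hM
  -- the exceptional set
  let Z : Set P := {p | p ∈ M ∧ p ∉ u ∧
    ∀ B ⊆ M, (∀ q ∈ B, r q p) → #B < κ → ¬ Sm μ (Agree u B ∩ Ici p)}
  have hZM : Z ⊆ M := fun p hp => hp.1
  have hZκ : #Z < κ := by
    by_contra hcon
    push Not at hcon
    -- an increasing sequence of length `κ` in `Z`
    have h1 : Ordinal.type (α := κ.ord.ToType) (· < ·) ≤ Ordinal.type (Subrel r (· ∈ Z)) := by
      rw [Ordinal.type_toType, ord_le]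
      exact hcon
    rw [Ordinal.type_le_iff'] at h1
    obtain ⟨g⟩ := h1
    refine p1 hs hμ (fun β => Agree u ((fun j => (g j).1) '' Iio β) ∩ Ici (g β).1) ?_ ?_
    · intro α β hαβ x hx y hy hxy
      have h2 : (g α).1 ≤ y := le_trans hx.2 hxy
      have h3 := (hy.1 (g α).1 ⟨α, hαβ, rfl⟩).1 h2
      exact (g α).2.2.1 h3
    · intro β hcov
      refine (g β).2.2.2 ((fun j => (g j).1) '' Iio β) ?_ ?_ ?_
        ⟨_, (hs.aleph0_le_rho β).trans (Order.le_succ _), hs.lim _ (hs.lt β), hcov⟩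
      · rintro _ ⟨j, _, rfl⟩
        exact (g j).2.1
      · rintro _ ⟨j, hj, rfl⟩
        exact g.map_rel_iff.2 hj
      · exact mk_image_le.trans_lt (by simpa using mk_Iio_lt β)
  -- `D Z` and `u` agree on `M`
  have hagree : ∀ p, p ∈ M → (p ∈ D Z ↔ p ∈ u) := by
    intro p
    induction p using hr.wf.induction with
    | h p ih =>
      intro hp
      have hcongr : ∀ B ⊆ M, (∀ q ∈ B, r q p) → Agree (D Z) B = Agree u B := fun B hB hBp =>
        agree_congr fun b hb => ih b (hBp b hb) (hB hb)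
      by_cases hpu : p ∈ u
      · simp only [hpu, iff_true]
        by_contra hpD
        have hpZ : p ∉ Z := fun h => h.2.1 hpu
        obtain ⟨h1, h2⟩ := hB2 Z p hpZ hpD
        have h3 := hcl2 Z hZM hZκ p hp hpZ
        rw [hcongr _ h3 h1] at h2
        apply hu (insert p (B2 Z p)) (insert_subset hp h3) ((mk_insert_le).trans_lt
          (add_lt_of_lt hs.inf (hB2κ _ _) (one_lt_aleph0.trans_le hs.inf)))
        refine h2.mono ?_
        intro x hx
        exact ⟨agree_anti (subset_insert _ _) hx, (hx p (mem_insert _ _)).2 hpu⟩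
      · simp only [hpu, iff_false]
        intro hpD
        obtain ⟨h1, h2⟩ := (hD Z p).1 hpD
        apply h1
        refine ⟨hp, hpu, fun B hB hBp hBκ => ?_⟩
        have h3 := h2 B hBp hBκ
        rw [hcongr B hB hBp] at h3
        exact h3
  -- contradiction
  have h1 := hcl1 Z hZM hZκ
  apply hu (B1 Z) h1 (hB1κ Z)
  have h2 : Agree u (B1 Z) = Agree (D Z) (B1 Z) :=
    agree_congr fun b hb => (hagree b (h1 hb)).symm
  rw [h2]
  exact hB1 Z

end Pool.Agent.H12.Ideals
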