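import Pool.Agent.H12.Ideals.T2

set_option autoImplicit false

universe u

open Cardinal Set CategoryTheory

namespace Pool.Agent.H12.Ideals

theorem treeProperty_aleph0 : TreeProperty (ℵ₀ : Cardinal.{u}) := by
  intro T π h1 h2 h3 h4
  let G : ((ord (ℵ₀ : Cardinal.{u})).ToType)ᵒᵖ ⥤ Type u :=
    { obj := fun a => T a.unop
      map := fun {a b} f => ↾(π b.unop a.unop (leOfHom f.unop))
      map_id := fun a => by
        ext x
        exact h1 _ x
      map_comp := fun {a b c} f g => by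
        ext x
        exact (h2 _ _ _ _ _ x).symm }
  have : ∀ j, Finite (G.obj j) := fun j => lt_aleph0_iff_finite.1 (h4 j.unop)
  have : ∀ j, Nonempty (G.obj j) := fun j => h3 j.unop
  obtain ⟨s, hs⟩ := nonempty_sections_of_finite_inverse_system G
  refine ⟨fun a => s (Opposite.op a), fun a b hab => ?_⟩
  exact hs (homOfLE hab).op

theorem t2_main (μ : Cardinal.{u}) (hμ : μ.IsSingular)
    (hcf : μ.ord.cof = ℵ₀ ∨ WeaklyCompact μ.ord.cof) :
    IsLUB (F '' Set.Ico ℵ₀ μ) (F μ) ∧ (μ.IsStrongLimit → F μ = μ) := by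
  obtain ⟨ρ, hs⟩ := exists_scale hμ
  have hreg : μ.ord.cof.ord.cof = μ.ord.cof := by simp
  have hpow : ∀ l < μ.ord.cof, 2 ^ l < μ.ord.cof := by
    rcases hcf with h | h
    · rw [h]
      intro l hl
      exact power_lt_aleph0 (by exact_mod_cast (natCast_lt_aleph0 (n := 2))) hl
    · exact fun l hl => h.1.isStrongLimit.isStrongPrelimit hl
  have htree : TreeProperty μ.ord.cof := by
    rcases hcf with h | h
    · rw [h]
      exact treeProperty_aleph0
    · exact h.2
  have hμ0 : ℵ₀ ≤ μ := hμ.aleph0_le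
  have hlub : IsLUB (F '' Set.Ico ℵ₀ μ) (F μ) := by
    constructor
    · rintro _ ⟨l, hl, rfl⟩
      exact F_mono hμ0 hl.2.le
    · intro b hb
      refine csInf_le' fun P _ hP => ?_
      obtain ⟨ρ₀, h1, h2, h3⟩ := small_of_treeProperty hs hP hpow htree hreg
      rw [coveredByFewer_iff]
      exact h3.mono subset_rfl (hb ⟨ρ₀, ⟨h1, h2⟩, rfl⟩)
  refine ⟨hlub, fun hst => le_antisymm ?_ (le_F hμ0)⟩
  refine hlub.2 ?_
  rintro _ ⟨l, hl, rfl⟩
  refine (F_le_succ hl.1).trans (Order.succ_le_of_lt ?_)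
  exact hst.isStrongPrelimit hl.2

end Pool.Agent.H12.Ideals
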