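import Pool.Agent.H12.Ideals.P1

set_option autoImplicit false

universe u

open Cardinal Set

namespace Pool.Agent.H12.Ideals

variable {P : Type u} [PartialOrder P] {μ κ : Cardinal.{u}} {ρ : κ.ord.ToType → Cardinal.{u}}

/-- the points whose trace on `B` is the same as the trace of `D` on `B` -/
def Agree (D B : Set P) : Set P := {x | ∀ b ∈ B, b ≤ x ↔ b ∈ D}

theorem agree_congr {D D' B : Set P} (h : ∀ b ∈ B, b ∈ D ↔ b ∈ D') : Agree D B = Agree D' B := by
  ext x
  constructor
  · intro hx b hb
    rw [hx b hb, h b hb]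
  · intro hx b hb
    rw [hx b hb, h b hb]

theorem agree_anti {D B B' : Set P} (h : B ⊆ B') : Agree D B' ⊆ Agree D B :=
  fun _ hx b hb => hx b (h hb)

theorem small_of_lt (hκ : ℵ₀ ≤ κ) (hpow : ∀ l < κ, 2 ^ l < κ) (hreg : κ.ord.cof = κ) :
    ∀ l < κ, κ ^ l ≤ κ := by
  intro l hl
  have hst : IsStrongPrelimit κ := fun x hx => hpow x hx
  have h1 : #{ s : Set (l.out × κ.out) // #s < κ} ≤ κ := by
    have h2 : #(l.out × κ.out) = κ ∨ l = 0 := by
      rcases eq_or_ne l 0 with h | h
      · exact Or.inr h
      · left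
        rw [mk_prod, lift_id, lift_id, mk_out, mk_out, mul_eq_right hκ hl.le h]
    rcases h2 with h2 | h2
    · have h3 := mk_subset_mk_lt_cof (α := l.out × κ.out) (by rw [h2]; exact hst)
      rw [h2, hreg] at h3
      exact h3.le
    · refine (mk_subtype_le _).trans ?_
      rw [mk_set, mk_prod, lift_id, lift_id, mk_out, mk_out, h2, zero_mul, power_zero]
      exact one_lt_aleph0.le.trans hκ
  refine le_trans ?_ h1
  have h4 : κ ^ l = #(l.out → κ.out) := by rw [← power_def, mk_out, mk_out]
  rw [h4]
  refine mk_le_of_injective (f := fun f : l.out → κ.out =>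
    (⟨{p | f p.1 = p.2}, ?_⟩ : { s : Set (l.out × κ.out) // #s < κ})) ?_
  · refine lt_of_le_of_lt (mk_le_of_injective (f := fun p : {p : l.out × κ.out | f p.1 = p.2} =>
      p.1.1) ?_) (by rw [mk_out]; exact hl)
    rintro ⟨⟨a, b⟩, hab⟩ ⟨⟨c, d⟩, hcd⟩ h
    simp only at h
    subst h
    simp only [mem_ofPred_eq] at hab hcd
    subst hab
    subst hcd
    rfl
  · intro f g hfg
    funext x
    have h5 : (x, f x) ∈ {p : l.out × κ.out | f p.1 = p.2} := rfl
    have h6 : {p : l.out × κ.out | f p.1 = p.2} = {p | g p.1 = p.2} := by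
      simpa using hfg
    rw [h6] at h5
    exact h5.symm

/-- tree argument: on a set `M` of size at most `κ` there is a trace `u` such that every small
part of it is taken by a non-small set of points. -/
theorem exists_trace (hs : Scale μ κ ρ) (hpow : ∀ l < κ, 2 ^ l < κ)
    (htree : TreeProperty κ) (hreg : κ.ord.cof = κ) (hP : ¬ Sm μ (Set.univ : Set P)) (M : Set P)
    (hM : #M ≤ κ) : ∃ u ⊆ M, ∀ B ⊆ M, #B < κ → ¬ Sm μ (Agree u B) := by
  classical
  rcases M.eq_empty_or_nonempty with hMe | hMne
  · refine ⟨∅, empty_subset _, fun B hB _ => ?_⟩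
    have : B = ∅ := by rw [hMe] at hB; exact subset_empty_iff.1 hB
    subst this
    have h : Agree (∅ : Set P) ∅ = Set.univ := by
      ext x; simp [Agree]
    rw [h]; exact hP
  -- enumeration of `M`
  obtain ⟨e, he⟩ : ∃ e : κ.ord.ToType → P, range e = M := by
    have h1 : #M ≤ #κ.ord.ToType := by simpa using hM
    obtain ⟨f⟩ := h1
    have : Nonempty M := hMne.to_subtype
    refine ⟨fun a => (Function.invFun f a).1, ?_⟩
    ext x
    constructor
    · rintro ⟨a, rfl⟩
      exact (Function.invFun f a).2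
    · intro hx
      refine ⟨f ⟨x, hx⟩, ?_⟩
      simp only [Function.leftInverse_invFun f.injective ⟨x, hx⟩]
  let B : κ.ord.ToType → Set P := fun a => e '' Iio a
  have hBmono : ∀ a b, a ≤ b → B a ⊆ B b := fun a b hab =>
    image_mono (Iio_subset_Iio hab)
  have hBcard : ∀ a, #(B a) < κ := fun a => mk_image_le.trans_lt (by simpa using mk_Iio_lt a)
  let T : κ.ord.ToType → Type u := fun a => {s : Set P // s ⊆ B a ∧ ¬ Sm μ (Agree s (B a))}
  have hTcard : ∀ a, #(T a) < κ := by
    intro a
    have h1 : #(T a) ≤ #(𝒫 (B a) : Set (Set P)) :=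
      mk_le_of_injective (f := fun s : T a => (⟨s.1, s.2.1⟩ : (𝒫 (B a) : Set (Set P))))
        (fun s t hst => Subtype.ext (congrArg (fun z : (𝒫 (B a) : Set (Set P)) => z.1) hst))
    rw [mk_powerset] at h1
    exact h1.trans_lt (hpow _ (hBcard a))
  let π : ∀ a b : κ.ord.ToType, a ≤ b → T b → T a := fun a b hab s =>
    ⟨s.1 ∩ B a, inter_subset_right, by
      intro hcon
      apply s.2.2
      refine hcon.mono ?_
      have h9 : Agree (s.1 ∩ B a) (B a) = Agree s.1 (B a) :=
        agree_congr fun b hb => ⟨fun h => h.1, fun h => ⟨h, hb⟩⟩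
      rw [h9]
      exact agree_anti (hBmono a b hab)⟩
  obtain ⟨s, hs1⟩ := htree T π
    (by
      intro a x
      apply Subtype.ext
      exact inter_eq_left.2 x.2.1)
    (by
      intro a b c hab hbc x
      apply Subtype.ext
      change x.1 ∩ B b ∩ B a = x.1 ∩ B a
      rw [inter_assoc, inter_eq_right.2 (hBmono a b hab)])
    (by
      intro a
      by_contra hcon
      rw [not_nonempty_iff] at hcon
      apply hP
      have h1 : (Set.univ : Set P) = ⋃ s : (𝒫 (B a) : Set (Set P)), Agree s.1 (B a) := by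
        symm
        refine Set.eq_univ_of_forall fun x => ?_
        refine mem_iUnion.2 ⟨⟨{b ∈ B a | b ≤ x}, sep_subset _ _⟩, ?_⟩
        intro b hb
        exact ⟨fun h => ⟨hb, h⟩, fun h => h.2⟩
      rw [h1]
      refine Sm.iUnion hs ?_ _ ?_
      · rw [mk_powerset]
        exact hpow _ (hBcard a)
      · rintro ⟨s, hs2⟩
        by_contra hcon2
        exact hcon.false ⟨s, hs2, hcon2⟩)
    hTcard
  have hs2 : ∀ a b, a ≤ b → (s b).1 ∩ B a = (s a).1 := by
    intro a b hab
    have := congrArg Subtype.val (hs1 a b hab)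
    exact this
  refine ⟨⋃ a, (s a).1, ?_, ?_⟩
  · refine iUnion_subset fun a => (s a).2.1.trans ?_
    rw [← he]
    exact image_subset_range _ _
  · intro C hC hCκ
    -- find a bound for `C`
    have h1 : ∃ a, C ⊆ B a := by
      have h2 : ∀ x : C, ∃ i, e i = x.1 := by
        intro x
        have := hC x.2
        rw [← he] at this
        exact this
      choose i hi using h2
      by_contra hcon
      have hcof : IsCofinal (range i) := by
        intro a
        by_contra hcon2
        push Not at hcon2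
        apply hcon
        refine ⟨a, ?_⟩
        intro x hx
        refine ⟨i ⟨x, hx⟩, ?_, hi ⟨x, hx⟩⟩
        exact hcon2 _ ⟨_, rfl⟩
      have h3 := Order.cof_le hcof
      have h4 : Order.cof κ.ord.ToType = κ := by
        rw [← hreg]; simp
      rw [h4] at h3
      exact absurd (h3.trans mk_range_le) (not_le.2 hCκ)
    obtain ⟨a, ha⟩ := h1
    intro hcon
    apply (s a).2.2
    refine hcon.mono ?_
    have h9 : Agree (⋃ a, (s a).1) C = Agree (s a).1 C := by
      refine agree_congr fun b hb => ?_
      constructor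
      · intro h
        obtain ⟨c, hc⟩ := mem_iUnion.1 h
        have hba : b ∈ B a := ha hb
        rcases le_total a c with hac | hca
        · rw [← hs2 a c hac]
          exact ⟨hc, hba⟩
        · rw [← hs2 c a hca] at hc
          exact hc.1
      · intro h
        exact mem_iUnion.2 ⟨a, h⟩
    rw [h9]
    exact agree_anti ha

end Pool.Agent.H12.Ideals
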